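import Pool.Agent.Helper39.Net.Reach

/-!
# The bit-reversal lower bound
-/

namespace Pool.Agent.Helper39.Net

open Set

/-- Reversal of the last `K` binary digits. -/
def rv : ℕ → ℕ → ℕ
  | 0, _ => 0
  | K + 1, i => (i % 2) * 2 ^ K + rv K (i / 2)

theorem rv_lt (K i : ℕ) : rv K i < 2 ^ K := by
  induction K generalizing i with
  | zero => simp [rv]
  | succ K ih =>
    have h1 := ih (i / 2)
    have h2 : i % 2 ≤ 1 := by omega
    simp only [rv, pow_succ]
    nlinarith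

theorem rv_add (a b i : ℕ) : rv (a + b) i = rv a (i % 2 ^ a) * 2 ^ b + rv b (i / 2 ^ a) := by
  induction a generalizing i with
  | zero => simp [rv]
  | succ a ih =>
    have e : a + 1 + b = (a + b) + 1 := by ring
    rw [e]
    simp only [rv]
    rw [ih (i / 2)]
    have h1 : i % 2 ^ (a + 1) % 2 = i % 2 := by
      rw [pow_succ', Nat.mod_mul_right_mod]
    have h2 : i % 2 ^ (a + 1) / 2 = i / 2 % 2 ^ a := by
      rw [pow_succ', Nat.mod_mul_right_div_self]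
    have h3 : i / 2 ^ (a + 1) = i / 2 / 2 ^ a := by
      rw [pow_succ', Nat.div_div_eq_div_mul]
    rw [h1, h2, h3]
    ring

theorem rv_inj (K : ℕ) : ∀ i < 2 ^ K, ∀ i' < 2 ^ K, rv K i = rv K i' → i = i' := by
  induction K with
  | zero => intro i hi i' hi' _; simp at hi hi'; omega
  | succ K ih =>
    intro i hi i' hi' h
    simp only [rv] at h
    have h1 := rv_lt K (i / 2)
    have h2 := rv_lt K (i' / 2)
    rw [pow_succ] at hi hi'
    have hmod : i % 2 = i' % 2 := by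
      rcases Nat.mod_two_eq_zero_or_one i with a | a <;>
        rcases Nat.mod_two_eq_zero_or_one i' with b | b <;> rw [a, b] at h ⊢ <;> omega
    rw [hmod] at h
    have := ih (i / 2) (by omega) (i' / 2) (by omega) (by omega)
    omega

theorem rv_low (j b q t : ℕ) (ht : t < 2 ^ j) :
    rv (j + (b + 1)) (2 ^ (j + 1) * q + t) = rv j t * 2 ^ (b + 1) + rv b q := by
  rw [rv_add]
  have h1 : (2 ^ (j + 1) * q + t) % 2 ^ j = t := by
    rw [pow_succ, mul_assoc, Nat.mul_add_mod, Nat.mod_eq_of_lt ht]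
  have h2 : (2 ^ (j + 1) * q + t) / 2 ^ j = 2 * q := by
    rw [pow_succ, mul_assoc, Nat.mul_add_div (by positivity), Nat.div_eq_of_lt ht, add_zero]
  rw [h1, h2]
  simp only [rv]
  rw [Nat.mul_mod_right, zero_mul, zero_add, Nat.mul_div_cancel_left _ (by norm_num)]

theorem rv_high (j b q t : ℕ) (ht : t < 2 ^ j) :
    rv (j + (b + 1)) (2 ^ (j + 1) * q + t + 2 ^ j) =
      rv j t * 2 ^ (b + 1) + rv b q + 2 ^ b := by
  rw [rv_add]
  have e : 2 ^ (j + 1) * q + t + 2 ^ j = 2 ^ j * (2 * q + 1) + t := by ring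
  have h1 : (2 ^ j * (2 * q + 1) + t) % 2 ^ j = t := by
    rw [Nat.mul_add_mod, Nat.mod_eq_of_lt ht]
  have h2 : (2 ^ j * (2 * q + 1) + t) / 2 ^ j = 2 * q + 1 := by
    rw [Nat.mul_add_div (by positivity), Nat.div_eq_of_lt ht, add_zero]
  rw [e, h1, h2]
  simp only [rv]
  have h3 : (2 * q + 1) % 2 = 1 := by omega
  have h4 : (2 * q + 1) / 2 = q := by omega
  rw [h3, h4]
  ring

section graph

variable {V : Type} {G : SimpleGraph V} {w : Sym2 V → ℝ}

theorem gdist_self (hw : ∀ e ∈ G.edgeSet, 0 < w e) (u : V) : gdist G w u u = 0 := by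
  refine le_antisymm ?_ (gdist_nonneg hw u u)
  have := gdist_le hw (SimpleGraph.Walk.nil : G.Walk u u)
  simpa [walkLen] using this

theorem gdist_adj (hG : G.Connected) (hw : ∀ e ∈ G.edgeSet, 0 < w e) (x : V) {u v : V}
    (h : G.Adj u v) : gdist G w x v ≤ gdist G w x u + w s(u, v) := by
  have : Nonempty (G.Walk x u) := hG.preconnected x u
  have h1 : gdist G w x v - w s(u, v) ≤ gdist G w x u := by
    refine le_ciInf fun p => ?_
    have := gdist_le hw (p.append (SimpleGraph.Walk.cons h SimpleGraph.Walk.nil))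
    rw [walkLen_append, walkLen_cons] at this
    simp only [walkLen, SimpleGraph.Walk.edges_nil, List.map_nil, List.sum_nil] at this ⊢
    linarith
  linarith

/-- McShane extension of a Lipschitz function of the image points. -/
theorem exists_potential (hG : G.Connected) (hw : ∀ e ∈ G.edgeSet, 0 < w e) {n : ℕ}
    (hn : 0 < n) (g : ℕ → V) (φ : ℕ → ℝ)
    (hφ : ∀ i < n, ∀ i' < n, φ i' ≤ φ i + gdist G w (g i) (g i')) :
    ∃ Φ : V → ℝ, (∀ i < n, Φ (g i) = φ i) ∧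
      ∀ u v, G.Adj u v → |Φ u - Φ v| ≤ w s(u, v) := by
  have hne : (Finset.range n).Nonempty := ⟨0, Finset.mem_range.2 hn⟩
  let Φ : V → ℝ := fun v => (Finset.range n).inf' hne fun i => φ i + gdist G w (g i) v
  have h1 : ∀ u v, G.Adj u v → Φ v ≤ Φ u + w s(u, v) := by
    intro u v huv
    obtain ⟨i, hi, hiu⟩ := Finset.exists_mem_eq_inf' hne fun i => φ i + gdist G w (g i) u
    have h2 : Φ v ≤ φ i + gdist G w (g i) v := Finset.inf'_le _ hi
    have h3 := gdist_adj hG hw (g i) huv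
    change Φ v ≤ (Finset.range n).inf' hne (fun i => φ i + gdist G w (g i) u) + _
    rw [hiu]
    linarith
  refine ⟨Φ, fun i hi => ?_, fun u v huv => ?_⟩
  · refine le_antisymm ?_ ?_
    · have : Φ (g i) ≤ φ i + gdist G w (g i) (g i) := Finset.inf'_le _ (Finset.mem_range.2 hi)
      rwa [gdist_self hw, add_zero] at this
    · exact Finset.le_inf' _ _ fun i' hi' => hφ i' (Finset.mem_range.1 hi') i hi
  · have h2 := h1 u v huv
    have h3 := h1 v u huv.symm
    rw [Sym2.eq_swap] at h3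
    rw [abs_le]
    constructor <;> linarith

theorem walk_bound (P1 P2 : V → ℝ)
    (hP : ∀ u v, G.Adj u v → |P1 u - P1 v| + |P2 u - P2 v| ≤ w s(u, v)) {a b : V}
    (p : G.Walk a b) : |P1 a - P1 b| + |P2 a - P2 b| ≤ walkLen w p := by
  induction p with
  | nil => simp [walkLen]
  | @cons u v z h p ih =>
    rw [walkLen_cons]
    have h1 := hP u v h
    have h2 := abs_sub_le (P1 u) (P1 v) (P1 z)
    have h3 := abs_sub_le (P2 u) (P2 v) (P2 z)
    linarith

theorem walk_through (P1 P2 : V → ℝ)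
    (hP : ∀ u v, G.Adj u v → |P1 u - P1 v| + |P2 u - P2 v| ≤ w s(u, v)) {a b : V}
    (p : G.Walk a b) {z : V} (hz : z ∈ p.support) :
    |P1 a - P1 z| + |P2 a - P2 z| + (|P1 z - P1 b| + |P2 z - P2 b|) ≤ walkLen w p := by
  classical
  have h := p.take_spec hz
  rw [← h, walkLen_append]
  exact add_le_add (walk_bound P1 P2 hP _) (walk_bound P1 P2 hP _)

theorem exists_crossing (P : V → ℝ) (m : ℝ) {a b : V} (p : G.Walk a b) (ha : P a < m)
    (hb : m ≤ P b) : ∃ d ∈ p.darts, P d.fst < m ∧ m ≤ P d.snd := by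
  induction p with
  | nil => exact absurd hb (not_le.2 ha)
  | @cons u v z h p ih =>
    by_cases hv : P v < m
    · obtain ⟨d, hd, h1, h2⟩ := ih hv hb
      exact ⟨d, by simp [hd], h1, h2⟩
    · exact ⟨⟨(u, v), h⟩, by simp, ha, not_lt.1 hv⟩

end graph

/-- The bit-reversal set with `2^(k+1)` points needs at least `(k+1) 2^(k-1)` edges, for
distortions `c` with `(c - 1) 2^(k+1) < 1`. -/
theorem lower_bound {E : Type} (ρ : E → E → ℝ) (k : ℕ) (pt : ℕ → E)
    (hpt : ∀ i < 2 ^ (k + 1), ∀ i' < 2 ^ (k + 1), ρ (pt i) (pt i') =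
      |(i : ℝ) - i'| + |(rv (k + 1) i : ℝ) - rv (k + 1) i'|)
    (M : Finset E) (hM : ∀ i < 2 ^ (k + 1), pt i ∈ M) (c : ℝ) (hc : 1 ≤ c)
    (hck : (c - 1) * 2 ^ (k + 1) < 1) (m : ℕ) (h : Embeds ρ M c m) :
    (k + 1) * 2 ^ k ≤ 2 * m := by
  classical
  obtain ⟨V, hV, G, w, hG, hw, hm, f, s, hs, hf⟩ := h
  set K := k + 1 with hK
  let g : ℕ → V := fun i => f (pt i)
  have hg : ∀ i : ℕ, i < 2 ^ K → ∀ i' : ℕ, i' < 2 ^ K →
      s * (|(i : ℝ) - i'| + |(rv K i : ℝ) - rv K i'|) ≤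
      gdist G w (g i) (g i') ∧ gdist G w (g i) (g i') ≤
        c * (s * (|(i : ℝ) - i'| + |(rv K i : ℝ) - rv K i'|)) := by
    intro i hi i' hi'
    rw [← hpt i hi i' hi']
    exact hf _ (hM i hi) _ (hM i' hi')
  have hpos : 0 < 2 ^ K := by positivity
  obtain ⟨Φ, hΦ1, hΦ2⟩ := exists_potential hG hw hpos g (fun i => s * ((i : ℝ) + rv K i)) (by
    intro i hi i' hi'
    refine le_trans ?_ (add_le_add_right (hg i hi i' hi').1 _)
    have h1 := neg_abs_le ((i : ℝ) - i')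
    have h2 := neg_abs_le ((rv K i : ℝ) - rv K i')
    nlinarith)
  obtain ⟨Ψ, hΨ1, hΨ2⟩ := exists_potential hG hw hpos g (fun i => s * ((i : ℝ) - rv K i)) (by
    intro i hi i' hi'
    refine le_trans ?_ (add_le_add_right (hg i hi i' hi').1 _)
    have h1 := neg_abs_le ((i : ℝ) - i')
    have h2 := le_abs_self ((rv K i : ℝ) - rv K i')
    nlinarith)
  let P1 : V → ℝ := fun v => (Φ v + Ψ v) / 2
  let P2 : V → ℝ := fun v => (Φ v - Ψ v) / 2
  have hP : ∀ u v, G.Adj u v → |P1 u - P1 v| + |P2 u - P2 v| ≤ w s(u, v) := by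
    intro u v huv
    have h1 := abs_le.1 (hΦ2 u v huv)
    have h2 := abs_le.1 (hΨ2 u v huv)
    simp only [P1, P2]
    rcases abs_cases ((Φ u + Ψ u) / 2 - (Φ v + Ψ v) / 2) with h3 | h3 <;>
      rcases abs_cases ((Φ u - Ψ u) / 2 - (Φ v - Ψ v) / 2) with h4 | h4 <;>
      rw [h3.1, h4.1] <;> linarith [h1.1, h1.2, h2.1, h2.2]
  have hP1 : ∀ i : ℕ, i < 2 ^ K → P1 (g i) = s * i := by
    intro i hi
    simp only [P1]
    rw [hΦ1 i hi, hΨ1 i hi]; ring
  have hP2 : ∀ i : ℕ, i < 2 ^ K → P2 (g i) = s * rv K i := by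
    intro i hi
    simp only [P2]
    rw [hΦ1 i hi, hΨ1 i hi]; ring
  -- the darts
  have key : ∀ q : Fin (k + 1) × Fin (2 ^ k), ∃ d : G.Dart,
      s * ((2 ^ (q.1.1 + 1) * (q.2.1 / 2 ^ q.1.1) + q.2.1 % 2 ^ q.1.1 : ℕ) - 1 / 2) < P1 d.fst ∧
      P1 d.fst < s * ((2 ^ (q.1.1 + 1) * (q.2.1 / 2 ^ q.1.1) + 2 ^ q.1.1 : ℕ) - 1 / 2) ∧
      s * ((2 ^ (q.1.1 + 1) * (q.2.1 / 2 ^ q.1.1) + 2 ^ q.1.1 : ℕ) - 1 / 2) ≤ P1 d.snd ∧
      P1 d.snd < s * ((2 ^ (q.1.1 + 1) * (q.2.1 / 2 ^ q.1.1) + q.2.1 % 2 ^ q.1.1 + 2 ^ q.1.1 : ℕ)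
        + 1 / 2) ∧
      s * ((rv q.1.1 (q.2.1 % 2 ^ q.1.1) * 2 ^ (k - q.1.1 + 1) + rv (k - q.1.1) (q.2.1 / 2 ^ q.1.1) :
        ℕ) - 1 / 2) < P2 d.fst ∧
      P2 d.fst < s * ((rv q.1.1 (q.2.1 % 2 ^ q.1.1) * 2 ^ (k - q.1.1 + 1) +
        rv (k - q.1.1) (q.2.1 / 2 ^ q.1.1) + 2 ^ (k - q.1.1) : ℕ) + 1 / 2) := by
    rintro ⟨⟨j, hj⟩, ⟨i', hi'⟩⟩
    simp only
    set q := i' / 2 ^ j with hq
    set t := i' % 2 ^ j with ht
    obtain ⟨b, hb⟩ : ∃ b, k = j + b := ⟨k - j, by omega⟩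
    have hkj : k - j = b := by omega
    rw [hkj]
    have htlt : t < 2 ^ j := Nat.mod_lt _ (by positivity)
    have hqlt : q < 2 ^ b := by
      rw [hq, Nat.div_lt_iff_lt_mul (by positivity), ← pow_add, add_comm b j, ← hb]
      exact hi'
    set ia := 2 ^ (j + 1) * q + t with hia
    set ib := ia + 2 ^ j with hib
    have hKe : K = j + (b + 1) := by omega
    have h2K : 2 ^ K = 2 ^ (j + 1) * 2 ^ b := by rw [← pow_add]; congr 1; omega
    have hib_lt : ib < 2 ^ K := by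
      rw [h2K, hib, hia]
      have e : 2 ^ (j + 1) = 2 * 2 ^ j := by rw [pow_succ]; ring
      have : 2 ^ (j + 1) * (q + 1) ≤ 2 ^ (j + 1) * 2 ^ b := Nat.mul_le_mul_left _ hqlt
      rw [Nat.mul_add] at this
      omega
    have hia_lt : ia < 2 ^ K := lt_of_le_of_lt (Nat.le_add_right _ _) hib_lt
    have hya : rv K ia = rv j t * 2 ^ (b + 1) + rv b q := by rw [hKe]; exact rv_low j b q t htlt
    have hyb : rv K ib = rv j t * 2 ^ (b + 1) + rv b q + 2 ^ b := by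
      rw [hKe]; exact rv_high j b q t htlt
    have hyb' : rv K ib = rv K ia + 2 ^ b := by rw [hya, hyb]
    rw [← hya]
    -- the walk
    have hρ : |(ia : ℝ) - ib| + |(rv K ia : ℝ) - rv K ib| = 2 ^ j + 2 ^ b := by
      rw [hyb', hib]
      push_cast
      have e1 : (ia : ℝ) - (ia + 2 ^ j) = -(2 ^ j) := by ring
      have e2 : (rv K ia : ℝ) - (rv K ia + 2 ^ b) = -(2 ^ b) := by ring
      rw [e1, e2, abs_neg, abs_neg, abs_of_pos (by positivity), abs_of_pos (by positivity)]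
    have hle : ((2 : ℝ) ^ j + 2 ^ b) ≤ 2 ^ K := by
      have h1 : (1 : ℝ) ≤ 2 ^ j := one_le_pow₀ (by norm_num)
      have h2 : (1 : ℝ) ≤ 2 ^ b := one_le_pow₀ (by norm_num)
      have e : (2 : ℝ) ^ K = 2 * (2 ^ j * 2 ^ b) := by
        rw [hKe]; ring
      rw [e]
      nlinarith
    have hlt : gdist G w (g ia) (g ib) < s * (2 ^ j + 2 ^ b + 1) := by
      refine lt_of_le_of_lt (hg ia hia_lt ib hib_lt).2 ?_
      rw [hρ]
      have h1 : (c - 1) * (2 ^ j + 2 ^ b) ≤ (c - 1) * 2 ^ K :=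
        mul_le_mul_of_nonneg_left hle (by linarith)
      have h2 : c * (2 ^ j + 2 ^ b) < 2 ^ j + 2 ^ b + 1 := by nlinarith
      calc c * (s * (2 ^ j + 2 ^ b)) = s * (c * (2 ^ j + 2 ^ b)) := by ring
        _ < s * (2 ^ j + 2 ^ b + 1) := mul_lt_mul_of_pos_left h2 hs
    have : Nonempty (G.Walk (g ia) (g ib)) := hG.preconnected _ _
    obtain ⟨p, hp⟩ := exists_lt_of_ciInf_lt hlt
    have e1 : P1 (g ia) = s * ia := hP1 ia hia_lt
    have e2 : P1 (g ib) = s * (ia + 2 ^ j) := by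
      rw [hP1 ib hib_lt, hib]; push_cast; ring
    have e3 : P2 (g ia) = s * rv K ia := hP2 ia hia_lt
    have e4 : P2 (g ib) = s * (rv K ia + 2 ^ b) := by
      rw [hP2 ib hib_lt, hyb']; push_cast; ring
    have hj0 : (0 : ℝ) < 2 ^ j := by positivity
    have hb0 : (0 : ℝ) < 2 ^ b := by positivity
    have hbox : ∀ z ∈ p.support, s * ((ia : ℝ) - 1 / 2) < P1 z ∧
        P1 z < s * ((ia : ℝ) + 2 ^ j + 1 / 2) ∧ s * ((rv K ia : ℝ) - 1 / 2) < P2 z ∧
        P2 z < s * ((rv K ia : ℝ) + 2 ^ b + 1 / 2) := by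
      intro z hz
      have h1 := walk_through P1 P2 hP p hz
      rw [e1, e2, e3, e4] at h1
      have h2 := h1.trans_lt hp
      have a1 := le_abs_self (s * (ia : ℝ) - P1 z)
      have a2 := neg_abs_le (s * (ia : ℝ) - P1 z)
      have a3 := le_abs_self (P1 z - s * ((ia : ℝ) + 2 ^ j))
      have a4 := neg_abs_le (P1 z - s * ((ia : ℝ) + 2 ^ j))
      have a5 := le_abs_self (s * (rv K ia : ℝ) - P2 z)
      have a6 := neg_abs_le (s * (rv K ia : ℝ) - P2 z)
      have a7 := le_abs_self (P2 z - s * ((rv K ia : ℝ) + 2 ^ b))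
      have a8 := neg_abs_le (P2 z - s * ((rv K ia : ℝ) + 2 ^ b))
      refine ⟨?_, ?_, ?_, ?_⟩ <;> nlinarith
    obtain ⟨dd, hd, hd1, hd2⟩ := exists_crossing P1
      (s * ((2 ^ (j + 1) * q + 2 ^ j : ℕ) - 1 / 2)) p (by
        rw [e1]
        refine mul_lt_mul_of_pos_left ?_ hs
        have : (ia : ℝ) + 1 ≤ (2 ^ (j + 1) * q + 2 ^ j : ℕ) := by
          have : ia + 1 ≤ 2 ^ (j + 1) * q + 2 ^ j := by omega
          exact_mod_cast this
        linarith) (by
        rw [e2]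
        refine mul_le_mul_of_nonneg_left ?_ hs.le
        have : ((2 ^ (j + 1) * q + 2 ^ j : ℕ) : ℝ) ≤ (ia : ℝ) + 2 ^ j := by
          have : 2 ^ (j + 1) * q + 2 ^ j ≤ ia + 2 ^ j := by omega
          exact_mod_cast this
        linarith)
    have hs1 : dd.fst ∈ p.support := p.dart_fst_mem_support_of_mem_darts hd
    have hs2 : dd.snd ∈ p.support := p.dart_snd_mem_support_of_mem_darts hd
    obtain ⟨b1, b2, b3, b4⟩ := hbox _ hs1
    obtain ⟨c1, c2, c3, c4⟩ := hbox _ hs2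
    refine ⟨dd, b1, hd1, hd2, ?_, b3, ?_⟩
    · rw [hib]
      push_cast at c2 ⊢
      exact c2
    · push_cast at b4 ⊢
      exact b4
  choose D hD using key
  have hinj : Function.Injective D := by
    rintro ⟨⟨j, hj⟩, ⟨i, hi⟩⟩ ⟨⟨j', hj'⟩, ⟨i', hi'⟩⟩ hDD
    obtain ⟨a1, a2, a3, a4, a5, a6⟩ := hD ⟨⟨j, hj⟩, ⟨i, hi⟩⟩
    obtain ⟨b1, b2, b3, b4, b5, b6⟩ := hD ⟨⟨j', hj'⟩, ⟨i', hi'⟩⟩
    rw [← hDD] at b1 b2 b3 b4 b5 b6
    simp only at a1 a2 a3 a4 a5 a6 b1 b2 b3 b4 b5 b6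
    set dd := D ⟨⟨j, hj⟩, ⟨i, hi⟩⟩
    set q := i / 2 ^ j with hq
    set t := i % 2 ^ j with ht
    set q' := i' / 2 ^ j' with hq'
    set t' := i' % 2 ^ j' with ht'
    have htlt : t < 2 ^ j := Nat.mod_lt _ (by positivity)
    have htlt' : t' < 2 ^ j' := Nat.mod_lt _ (by positivity)
    -- comparisons of the middle lines
    have c1 : 2 ^ (j + 1) * q + t < 2 ^ (j' + 1) * q' + 2 ^ j' := by
      have := lt_of_mul_lt_mul_left (a1.trans b2) hs.le
      have h2 : ((2 ^ (j + 1) * q + t : ℕ) : ℝ) < (2 ^ (j' + 1) * q' + 2 ^ j' : ℕ) := by linarith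
      exact_mod_cast h2
    have c2 : 2 ^ (j' + 1) * q' + 2 ^ j' ≤ 2 ^ (j + 1) * q + t + 2 ^ j := by
      have := lt_of_mul_lt_mul_left (b3.trans_lt a4) hs.le
      have h2 : ((2 ^ (j' + 1) * q' + 2 ^ j' : ℕ) : ℝ) < (2 ^ (j + 1) * q + t + 2 ^ j + 1 : ℕ) := by
        push_cast at this ⊢; linarith
      have h3 : 2 ^ (j' + 1) * q' + 2 ^ j' < 2 ^ (j + 1) * q + t + 2 ^ j + 1 := by exact_mod_cast h2
      omega
    have c3 : 2 ^ (j' + 1) * q' + t' < 2 ^ (j + 1) * q + 2 ^ j := by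
      have := lt_of_mul_lt_mul_left (b1.trans a2) hs.le
      have h2 : ((2 ^ (j' + 1) * q' + t' : ℕ) : ℝ) < (2 ^ (j + 1) * q + 2 ^ j : ℕ) := by linarith
      exact_mod_cast h2
    have c4 : 2 ^ (j + 1) * q + 2 ^ j ≤ 2 ^ (j' + 1) * q' + t' + 2 ^ j' := by
      have := lt_of_mul_lt_mul_left (a3.trans_lt b4) hs.le
      have h2 : ((2 ^ (j + 1) * q + 2 ^ j : ℕ) : ℝ) < (2 ^ (j' + 1) * q' + t' + 2 ^ j' + 1 : ℕ) := by
        push_cast at this ⊢; linarith
      have h3 : 2 ^ (j + 1) * q + 2 ^ j < 2 ^ (j' + 1) * q' + t' + 2 ^ j' + 1 := by exact_mod_cast h2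
      omega
    -- a multiple of `2^(j+1)` cannot lie strictly inside a block
    have hno : ∀ (j q z t : ℕ), t < 2 ^ j → 2 ^ (j + 1) * q < 2 ^ (j + 1) * z →
        2 ^ (j + 1) * z ≤ 2 ^ (j + 1) * q + t + 2 ^ j → False := by
      intro j q z t ht h1 h2
      have h3 : q < z := Nat.lt_of_mul_lt_mul_left h1
      have h4 : 2 ^ (j + 1) * (q + 1) ≤ 2 ^ (j + 1) * z := Nat.mul_le_mul_left _ h3
      rw [Nat.mul_add, pow_succ] at h4
      rw [pow_succ] at h2
      omega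
    have hjj : j = j' := by
      rcases lt_trichotomy j j' with h | h | h
      · exfalso
        obtain ⟨e, rfl⟩ : ∃ e, j' = j + 1 + e := ⟨j' - (j + 1), by omega⟩
        have e1 : 2 ^ (j + 1 + e + 1) * q' + 2 ^ (j + 1 + e) =
            2 ^ (j + 1) * (2 ^ (e + 1) * q' + 2 ^ e) := by ring
        rw [e1] at c1 c2
        exact hno j q _ t htlt (by omega) c2
      · exact h
      · exfalso
        obtain ⟨e, rfl⟩ : ∃ e, j = j' + 1 + e := ⟨j - (j' + 1), by omega⟩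
        have e1 : 2 ^ (j' + 1 + e + 1) * q + 2 ^ (j' + 1 + e) =
            2 ^ (j' + 1) * (2 ^ (e + 1) * q + 2 ^ e) := by ring
        rw [e1] at c3 c4
        exact hno j' q' _ t' htlt' (by omega) c4
    subst hjj
    have hqq : q = q' := by
      rcases lt_trichotomy q q' with h | h | h
      · exfalso
        have h4 : 2 ^ (j + 1) * (q + 1) ≤ 2 ^ (j + 1) * q' := Nat.mul_le_mul_left _ h
        rw [Nat.mul_add, pow_succ] at h4
        rw [pow_succ] at c2
        omega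
      · exact h
      · exfalso
        have h4 : 2 ^ (j + 1) * (q' + 1) ≤ 2 ^ (j + 1) * q := Nat.mul_le_mul_left _ h
        rw [Nat.mul_add, pow_succ] at h4
        rw [pow_succ] at c4
        omega
    rw [← hqq] at b5 b6
    set b := k - j
    have hrr : rv j t = rv j t' := by
      have f1 : (rv j t * 2 ^ (b + 1) + rv b q) < (rv j t' * 2 ^ (b + 1) + rv b q + 2 ^ b) + 1 := by
        have := lt_of_mul_lt_mul_left (a5.trans b6) hs.le
        have h2 : ((rv j t * 2 ^ (b + 1) + rv b q : ℕ) : ℝ) <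
            ((rv j t' * 2 ^ (b + 1) + rv b q + 2 ^ b) + 1 : ℕ) := by
          push_cast at this ⊢; linarith
        exact_mod_cast h2
      have f2 : (rv j t' * 2 ^ (b + 1) + rv b q) < (rv j t * 2 ^ (b + 1) + rv b q + 2 ^ b) + 1 := by
        have := lt_of_mul_lt_mul_left (b5.trans a6) hs.le
        have h2 : ((rv j t' * 2 ^ (b + 1) + rv b q : ℕ) : ℝ) <
            ((rv j t * 2 ^ (b + 1) + rv b q + 2 ^ b) + 1 : ℕ) := by
          push_cast at this ⊢; linarith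
        exact_mod_cast h2
      have hb1 : 1 ≤ 2 ^ b := Nat.one_le_two_pow
      rcases lt_trichotomy (rv j t) (rv j t') with h | h | h
      · exfalso
        have h4 : (rv j t + 1) * 2 ^ (b + 1) ≤ rv j t' * 2 ^ (b + 1) := Nat.mul_le_mul_right _ h
        rw [Nat.add_mul, pow_succ] at h4
        rw [pow_succ] at f2
        omega
      · exact h
      · exfalso
        have h4 : (rv j t' + 1) * 2 ^ (b + 1) ≤ rv j t * 2 ^ (b + 1) := Nat.mul_le_mul_right _ h
        rw [Nat.add_mul, pow_succ] at h4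
        rw [pow_succ] at f1
        omega
    have htt : t = t' := rv_inj j t htlt t' htlt' hrr
    have hii : i = i' := by
      rw [← Nat.div_add_mod i (2 ^ j), ← Nat.div_add_mod i' (2 ^ j), ← hq, ← hq', ← ht, ← ht',
        hqq, htt]
    subst hii
    rfl
  have : Fintype V := Fintype.ofFinite V
  have hcard := Fintype.card_le_of_injective D hinj
  rw [Fintype.card_prod, Fintype.card_fin, Fintype.card_fin, G.dart_card_eq_twice_card_edges] at hcard
  have he : G.edgeFinset.card = G.edgeSet.ncard := by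
    rw [← SimpleGraph.coe_edgeFinset, ncard_coe_finset]
  rw [he] at hcard
  calc (k + 1) * 2 ^ k ≤ _ := hcard
    _ ≤ 2 * m := Nat.mul_le_mul_left _ hm

end Pool.Agent.Helper39.Net
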