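import Pool.Agent.Helper39.Net.Reach

/-!
# From exact networks for few points to `(1+ε)`-networks with linearly many edges
-/

namespace Pool.Agent.Helper39.Net

open Set

variable {E : Type} {ρ : E → E → ℝ}

theorem exists_net (hsymm : ∀ x y, ρ x y = ρ y x) (h0 : ∀ x, ρ x x = 0) (Y : Finset E) (r : ℝ)
    (hr : 0 < r) : ∃ Y' ⊆ Y, (∀ x ∈ Y', ∀ y ∈ Y', x ≠ y → r ≤ ρ x y) ∧
      ∀ y ∈ Y, ∃ z ∈ Y', ρ y z < r := by
  classical
  induction Y using Finset.induction_on with
  | empty => exact ⟨∅, by simp, by simp, by simp⟩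
  | @insert a s ha ih =>
    obtain ⟨Y', hY', hsep, hden⟩ := ih
    by_cases h : ∃ z ∈ Y', ρ a z < r
    · refine ⟨Y', hY'.trans (Finset.subset_insert _ _), hsep, fun y hy => ?_⟩
      rcases Finset.mem_insert.1 hy with rfl | hy
      · exact h
      · exact hden y hy
    · push Not at h
      refine ⟨insert a Y', Finset.insert_subset_insert _ hY', ?_, fun y hy => ?_⟩
      · intro x hx y hy hxy
        rcases Finset.mem_insert.1 hx with hx1 | hx1 <;>
          rcases Finset.mem_insert.1 hy with hy1 | hy1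
        · exact absurd (hx1.trans hy1.symm) hxy
        · rw [hx1]; exact h y hy1
        · rw [hy1, hsymm]; exact h x hx1
        · exact hsep x hx1 y hy1 hxy
      · rcases Finset.mem_insert.1 hy with hy1 | hy1
        · exact ⟨a, Finset.mem_insert_self _ _, by rw [hy1, h0]; exact hr⟩
        · obtain ⟨z, hz, hyz⟩ := hden y hy1
          exact ⟨z, Finset.mem_insert_of_mem hz, hyz⟩

theorem telescope3 (a : ℕ → ℕ) (ha : ∀ k, a (k + 1) ≤ a k) (J : ℕ) :
    ∑ k ∈ Finset.range J, (a k - a (k + 3)) ≤ 3 * a 0 := by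
  have h : ∑ k ∈ Finset.range J, (a k - a (k + 3)) + (a J + a (J + 1) + a (J + 2)) =
      a 0 + a 1 + a 2 := by
    induction J with
    | zero => simp
    | succ J ih =>
      rw [Finset.sum_range_succ]
      have h1 := ha J
      have h2 := ha (J + 1)
      have h3 := ha (J + 2)
      have e1 : J + 1 + 1 = J + 2 := rfl
      have e2 : J + 1 + 2 = J + 3 := rfl
      have e3 : J + 2 + 1 = J + 3 := rfl
      rw [e1] at h2 ⊢
      rw [e3] at h3
      rw [e2]
      omega
  have h1 := ha 0
  have h2 := ha 1
  have e1 : 0 + 1 = 1 := rfl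
  have e2 : 1 + 1 = 2 := rfl
  rw [e1] at h1
  rw [e2] at h2
  omega

theorem telescope1 (a : ℕ → ℕ) (ha : ∀ k, a (k + 1) ≤ a k) (J : ℕ) :
    ∑ k ∈ Finset.range J, (a k - a (k + 1)) ≤ a 0 := by
  have h : ∑ k ∈ Finset.range J, (a k - a (k + 1)) + a J = a 0 := by
    induction J with
    | zero => simp
    | succ J ih =>
      rw [Finset.sum_range_succ]
      have h1 := ha J
      omega
  omega

/-- The hierarchical construction. -/
theorem spanner (hsymm : ∀ x y, ρ x y = ρ y x) (htri : ∀ x y z, ρ x z ≤ ρ x y + ρ y z)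
    (h0 : ∀ x, ρ x x = 0) (hpos : ∀ x y, x ≠ y → 0 < ρ x y) (T P L : ℕ) (lam : ℝ)
    (hlam : 6 ≤ lam)
    (hex : ∀ Y : Finset E, Y.card ≤ 2 ^ L → ∃ S : Finset (E × E), S.card ≤ Y.card * T ∧
      ∀ x ∈ Y, ∀ y ∈ Y, Reach ρ (S : Set (E × E)) x y (ρ x y))
    (hP : ∀ (s : Finset E) (z : E) (r : ℝ), 0 < r → (∀ x ∈ s, ∀ y ∈ s, x ≠ y → r ≤ ρ x y) →
      (∀ x ∈ s, ρ x z ≤ 4 * r) → s.card ≤ P)
    (hL : ∀ (s : Finset E) (z : E) (r : ℝ), 0 < r → (∀ x ∈ s, ∀ y ∈ s, x ≠ y → r ≤ ρ x y) →
      (∀ x ∈ s, ρ x z ≤ 4 * lam ^ 2 * r) → s.card ≤ 2 ^ L)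
    (X : Finset E) :
    ∃ S : Finset (E × E), S.card ≤ X.card * (1 + 6 * P * T) ∧
      ∀ x ∈ X, ∀ y ∈ X, Reach ρ (S : Set (E × E)) x y ((1 + 8 / lam) * ρ x y) := by
  classical
  have hnn : ∀ x y, 0 ≤ ρ x y := fun x y => by
    by_cases h : x = y
    · rw [h, h0]
    · exact (hpos x y h).le
  -- base scale
  obtain ⟨r0, hr0, hsep0⟩ : ∃ r0 : ℝ, 0 < r0 ∧ ∀ x ∈ X, ∀ y ∈ X, x ≠ y → r0 ≤ ρ x y := by
    by_cases hne : (X.offDiag).Nonempty
    · obtain ⟨p, hp, hmin⟩ := Finset.exists_min_image X.offDiag (fun p => ρ p.1 p.2) hne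
      rw [Finset.mem_offDiag] at hp
      exact ⟨ρ p.1 p.2, hpos _ _ hp.2.2, fun x hx y hy hxy =>
        hmin (x, y) (Finset.mem_offDiag.2 ⟨hx, hy, hxy⟩)⟩
    · refine ⟨1, one_pos, fun x hx y hy hxy => absurd ⟨(x, y), ?_⟩ hne⟩
      exact Finset.mem_offDiag.2 ⟨hx, hy, hxy⟩
  have hlam0 : 0 < lam := by linarith
  let r : ℕ → ℝ := fun k => r0 * lam ^ k
  have hrpos : ∀ k, 0 < r k := fun k => by positivity
  have hrs : ∀ k, r (k + 1) = lam * r k := fun k => by simp only [r, pow_succ]; ring
  choose! nt hntsub hntsep hntden using fun (Y : Finset E) (r : ℝ) (hr : 0 < r) =>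
    exists_net hsymm h0 Y r hr
  let N : ℕ → Finset E := fun k => Nat.rec X (fun k Y => nt Y (r (k + 1))) k
  have hN0 : N 0 = X := rfl
  have hNs : ∀ k, N (k + 1) = nt (N k) (r (k + 1)) := fun k => rfl
  have hsub : ∀ k, N (k + 1) ⊆ N k := fun k => by
    rw [hNs]; exact hntsub _ _ (hrpos _)
  have hsubX : ∀ k, N k ⊆ X := fun k => by
    induction k with
    | zero => exact subset_rfl
    | succ k ih => exact (hsub k).trans ih
  have hsep : ∀ k, ∀ x ∈ N k, ∀ y ∈ N k, x ≠ y → r k ≤ ρ x y := by
    intro k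
    cases k with
    | zero =>
      intro x hx y hy hxy
      have := hsep0 x hx y hy hxy
      simpa [r] using this
    | succ k => rw [hNs]; exact hntsep _ _ (hrpos _)
  have hden : ∀ k, ∀ x ∈ N k, ∃ z ∈ N (k + 1), ρ x z < r (k + 1) := by
    intro k
    rw [hNs]
    exact hntden _ _ (hrpos _)
  choose! par hparmem hpardist using hden
  -- top scale
  obtain ⟨J, hJ⟩ : ∃ J, ∀ x ∈ N J, ∀ y ∈ N J, x = y := by
    obtain ⟨B, hB⟩ : ∃ B : ℝ, ∀ x ∈ X, ∀ y ∈ X, ρ x y ≤ B := by
      obtain ⟨B, hB⟩ := (((X ×ˢ X).image fun p => ρ p.1 p.2).finite_toSet).bddAbove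
      exact ⟨B, fun x hx y hy => hB (by
        rw [Finset.coe_image]
        exact ⟨(x, y), Finset.mem_coe.2 (Finset.mem_product.2 ⟨hx, hy⟩), rfl⟩)⟩
    obtain ⟨J, hJ⟩ := pow_unbounded_of_one_lt (B / r0) (by linarith : (1 : ℝ) < lam)
    refine ⟨J, fun x hx y hy => ?_⟩
    by_contra hne
    have h1 := hsep J x hx y hy hne
    have h2 := hB x (hsubX J hx) y (hsubX J hy)
    have h3 : B < r J := by
      simp only [r]
      rw [div_lt_iff₀ hr0] at hJ
      linarith
    linarith
  -- edges
  let Rel : ℕ → Finset E := fun k => (N k).filter fun x => ∃ y ∈ N k, y ≠ x ∧ ρ x y < 2 * r (k + 2)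
  let cell : ℕ → E → Finset E := fun k z => (Rel k).filter fun x => ρ x z ≤ 4 * r (k + 2)
  have hcell : ∀ k z, (cell k z).card ≤ 2 ^ L := by
    intro k z
    refine hL (cell k z) z (r k) (hrpos k) ?_ ?_
    · intro x hx y hy hxy
      exact hsep k x (Finset.filter_subset _ _ (Finset.filter_subset _ _ hx)) y
        (Finset.filter_subset _ _ (Finset.filter_subset _ _ hy)) hxy
    · intro x hx
      have := (Finset.mem_filter.1 hx).2
      rw [hrs (k + 1), hrs k] at this
      calc ρ x z ≤ 4 * (lam * (lam * r k)) := this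
        _ = 4 * lam ^ 2 * r k := by ring
  choose SC hSC hSCr using fun k z => hex (cell k z) (hcell k z)
  let PE : ℕ → Finset (E × E) := fun k => (N k \ N (k + 1)).image fun x => (x, par k x)
  let S : Finset (E × E) := (Finset.range J).biUnion fun k =>
    PE k ∪ (N (k + 2)).biUnion fun z => SC k z
  have hcardN : ∀ k, (N (k + 1)).card ≤ (N k).card := fun k => Finset.card_le_card (hsub k)
  have hRel : ∀ k, (Rel k).card ≤ 2 * ((N k).card - (N (k + 3)).card) := by
    intro k
    have hsub3 : N (k + 3) ⊆ N k := (hsub (k + 2)).trans ((hsub (k + 1)).trans (hsub k))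
    have e0 : (N k \ N (k + 3)).card = (N k).card - (N (k + 3)).card :=
      Finset.card_sdiff_of_subset hsub3
    have e1 : ((Rel k) \ N (k + 3)).card ≤ (N k \ N (k + 3)).card :=
      Finset.card_le_card (Finset.sdiff_subset_sdiff (Finset.filter_subset _ _) subset_rfl)
    have e2 : ((Rel k) ∩ N (k + 3)).card ≤ (N k \ N (k + 3)).card := by
      have hg : ∀ x ∈ (Rel k) ∩ N (k + 3), ∃ y ∈ N k, y ≠ x ∧ ρ x y < 2 * r (k + 2) := fun x hx =>
        (Finset.mem_filter.1 (Finset.mem_inter.1 hx).1).2
      choose! g hg1 hg2 hg3 using hg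
      refine Finset.card_le_card_of_injOn g ?_ ?_
      · intro x hx
        have hx' := Finset.mem_coe.1 hx
        refine Finset.mem_coe.2 (Finset.mem_sdiff.2 ⟨hg1 x hx', fun hmem => ?_⟩)
        have := hsep (k + 3) x (Finset.mem_inter.1 hx').2 (g x) hmem (hg2 x hx').symm
        rw [show k + 3 = (k + 2) + 1 from rfl, hrs] at this
        have h3 := hg3 x hx'
        have h4 := hrpos (k + 2)
        nlinarith
      · intro x hx y hy hxy
        have hx' := Finset.mem_coe.1 hx
        have hy' := Finset.mem_coe.1 hy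
        by_contra hne
        have := hsep (k + 3) x (Finset.mem_inter.1 hx').2 y (Finset.mem_inter.1 hy').2 hne
        rw [show k + 3 = (k + 2) + 1 from rfl, hrs] at this
        have h3 := hg3 x hx'
        have h5 := hg3 y hy'
        have h6 := htri x (g x) y
        rw [hsymm (g x) y, hxy] at h6
        rw [hxy] at h3
        have h4 := hrpos (k + 2)
        nlinarith
    have e3 : (Rel k).card = ((Rel k) \ N (k + 3)).card + ((Rel k) ∩ N (k + 3)).card :=
      (Finset.card_sdiff_add_card_inter _ _).symm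
    omega
  have hcellsum : ∀ k, ∑ z ∈ N (k + 2), (cell k z).card ≤ P * (Rel k).card := by
    intro k
    have : ∑ z ∈ N (k + 2), (cell k z).card =
        ∑ x ∈ Rel k, ((N (k + 2)).filter fun z => ρ x z ≤ 4 * r (k + 2)).card := by
      simp only [cell, Finset.card_filter]
      rw [Finset.sum_comm]
    rw [this]
    have h1 : P * (Rel k).card = ∑ _x ∈ Rel k, P := by
      rw [Finset.sum_const, smul_eq_mul, mul_comm]
    rw [h1]
    refine Finset.sum_le_sum fun x _ => ?_
    refine hP _ x (r (k + 2)) (hrpos _) ?_ ?_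
    · intro a ha b hb hab
      exact hsep (k + 2) a (Finset.filter_subset _ _ ha) b (Finset.filter_subset _ _ hb) hab
    · intro a ha
      rw [hsymm]
      exact (Finset.mem_filter.1 ha).2
  refine ⟨S, ?_, ?_⟩
  · have h1 : S.card ≤ ∑ k ∈ Finset.range J, (((N k).card - (N (k + 1)).card) +
        P * (2 * ((N k).card - (N (k + 3)).card)) * T) := by
      refine Finset.card_biUnion_le.trans (Finset.sum_le_sum fun k _ => ?_)
      refine (Finset.card_union_le _ _).trans (Nat.add_le_add ?_ ?_)
      · refine Finset.card_image_le.trans (le_of_eq ?_)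
        exact Finset.card_sdiff_of_subset (hsub k)
      · refine Finset.card_biUnion_le.trans ?_
        calc ∑ z ∈ N (k + 2), (SC k z).card ≤ ∑ z ∈ N (k + 2), (cell k z).card * T :=
              Finset.sum_le_sum fun z _ => hSC k z
          _ = (∑ z ∈ N (k + 2), (cell k z).card) * T := (Finset.sum_mul _ _ _).symm
          _ ≤ (P * (Rel k).card) * T := Nat.mul_le_mul_right _ (hcellsum k)
          _ ≤ P * (2 * ((N k).card - (N (k + 3)).card)) * T :=
              Nat.mul_le_mul_right _ (Nat.mul_le_mul_left _ (hRel k))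
    rw [Finset.sum_add_distrib] at h1
    have h2 := telescope1 (fun k => (N k).card) hcardN J
    have h3 := telescope3 (fun k => (N k).card) hcardN J
    have h4 : ∑ k ∈ Finset.range J, P * (2 * ((N k).card - (N (k + 3)).card)) * T =
        P * 2 * T * ∑ k ∈ Finset.range J, ((N k).card - (N (k + 3)).card) := by
      rw [Finset.mul_sum]
      exact Finset.sum_congr rfl fun k _ => by ring
    rw [h4] at h1
    rw [← hN0]
    calc S.card ≤ _ := h1
      _ ≤ (N 0).card + P * 2 * T * (3 * (N 0).card) := Nat.add_le_add h2 (Nat.mul_le_mul_left _ h3)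
      _ = (N 0).card * (1 + 6 * P * T) := by ring
  · -- reachability
    have hPE : ∀ k < J, ∀ x ∈ N k, ∃ x' ∈ N (k + 1), ρ x x' < r (k + 1) ∧
        Reach ρ (S : Set (E × E)) x x' (r (k + 1)) := by
      intro k hk x hx
      by_cases h : x ∈ N (k + 1)
      · exact ⟨x, h, by rw [h0]; exact hrpos _, Reach.refl (hrpos _).le⟩
      · refine ⟨par k x, hparmem k x hx, hpardist k x hx, ?_⟩
        refine (Reach.edge (Or.inl ?_)).mono (hpardist k x hx).le
        refine Finset.mem_coe.2 (Finset.mem_biUnion.2 ⟨k, Finset.mem_range.2 hk, ?_⟩)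
        exact Finset.mem_union_left _ (Finset.mem_image.2 ⟨x, Finset.mem_sdiff.2 ⟨hx, h⟩, rfl⟩)
    have main : ∀ j ≤ J, ∀ x ∈ N (J - j), ∀ y ∈ N (J - j),
        Reach ρ (S : Set (E × E)) x y (max (ρ x y) ((1 + 8 / lam) * ρ x y - 8 * r (J - j))) := by
      intro j
      induction j with
      | zero =>
        intro _ x hx y hy
        have := hJ x hx y hy
        subst this
        exact Reach.refl (by rw [h0]; exact le_max_left _ _)
      | succ j ih =>
        intro hj x hx y hy
        obtain ⟨k, hk⟩ : ∃ k, k = J - (j + 1) := ⟨_, rfl⟩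
        rw [← hk] at hx hy ⊢
        have hk1 : J - j = k + 1 := by omega
        rw [hk1] at ih
        have hkJ : k < J := by omega
        have ih' := ih (by omega)
        by_cases hxy : x = y
        · subst hxy
          exact Reach.refl (by rw [h0]; exact le_max_left _ _)
        · by_cases hD : ρ x y < 2 * r (k + 2)
          · refine Reach.mono ?_ (le_max_left _ _)
            have hxR : x ∈ Rel k := Finset.mem_filter.2 ⟨hx, y, hy, Ne.symm hxy, hD⟩
            have hyR : y ∈ Rel k := Finset.mem_filter.2 ⟨hy, x, hx, hxy, by rwa [hsymm]⟩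
            have hz1 := hparmem k x hx
            have hz2 := hparmem (k + 1) _ hz1
            have d1 := hpardist k x hx
            have d2 := hpardist (k + 1) _ hz1
            set x1 := par k x
            set x2 := par (k + 1) x1
            have hr1 : r (k + 1) ≤ r (k + 2) := by
              rw [hrs (k + 1)]
              have := hrpos (k + 1)
              nlinarith
            have d3 : ρ x x2 ≤ 2 * r (k + 2) := by
              have := htri x x1 x2
              have e : r (k + 1 + 1) = r (k + 2) := rfl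
              rw [e] at d2
              linarith
            have d4 : ρ y x2 ≤ 4 * r (k + 2) := by
              have := htri y x x2
              rw [hsymm y x] at this
              linarith
            have hxc : x ∈ cell k x2 := Finset.mem_filter.2 ⟨hxR, by linarith [hrpos (k + 2)]⟩
            have hyc : y ∈ cell k x2 := Finset.mem_filter.2 ⟨hyR, d4⟩
            refine (hSCr k x2 x hxc y hyc).mono_set fun p hp => ?_
            refine Finset.mem_coe.2 (Finset.mem_biUnion.2 ⟨k, Finset.mem_range.2 hkJ, ?_⟩)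
            exact Finset.mem_union_right _ (Finset.mem_biUnion.2 ⟨x2, hz2, hp⟩)
          · push Not at hD
            obtain ⟨x', hx', dx, rx⟩ := hPE k hkJ x hx
            obtain ⟨y', hy', dy, ry⟩ := hPE k hkJ y hy
            have h1 := (rx.trans (ih' x' hx' y' hy')).trans (ry.symm hsymm)
            refine h1.mono ?_
            have hD' : ρ x' y' ≤ ρ x y + 2 * r (k + 1) := by
              have t1 := htri x' x y'
              have t2 := htri x y y'
              rw [hsymm x' x] at t1
              linarith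
            have hrk := hrpos k
            have e1 : r (k + 1) = lam * r k := hrs k
            have e2 : r (k + 2) = lam * (lam * r k) := by rw [hrs (k + 1), hrs k]
            rw [e1] at hD' ⊢
            rw [e2] at hD
            have hη : 8 / lam * (2 * (lam * (lam * r k))) = 16 * lam * r k := by
              field_simp
              ring
            have hη0 : 0 < 8 / lam := by positivity
            have h8 : 8 / lam * (2 * (lam * (lam * r k))) ≤ 8 / lam * ρ x y :=
              mul_le_mul_of_nonneg_left hD hη0.le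
            rw [hη] at h8
            have h9 : 8 / lam * ρ x' y' ≤ 8 / lam * ρ x y + 16 * r k := by
              have := mul_le_mul_of_nonneg_left hD' hη0.le
              have e : 8 / lam * (ρ x y + 2 * (lam * r k)) = 8 / lam * ρ x y + 16 * r k := by
                field_simp
                ring
              linarith
            have hlr : 6 * r k ≤ lam * r k := mul_le_mul_of_nonneg_right hlam hrk.le
            rw [add_assoc, ← max_add_add_right, ← max_add_add_left]
            refine le_trans (max_le ?_ ?_) (le_max_right _ _)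
            · nlinarith
            · nlinarith
    intro x hx y hy
    have := main J le_rfl x (by rw [Nat.sub_self]; exact hx) y (by rw [Nat.sub_self]; exact hy)
    refine this.mono (max_le ?_ ?_)
    · have : 0 ≤ 8 / lam * ρ x y := mul_nonneg (by positivity) (hnn x y)
      linarith
    · have := hrpos (J - J)
      linarith

end Pool.Agent.Helper39.Net
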