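import Pool.Agent.Helper39.Net.Packing
import Pool.Agent.Helper39.Net.Spanner
import Pool.Agent.Helper39.Net.Lower

/-!
# Numerical bounds and the two general upper bounds
-/

namespace Pool.Agent.Helper39.Net

open Set

/-- `1 + log(1 + 1/(c-1))`. -/
noncomputable def G (c : ℝ) : ℝ := 1 + Real.log (1 + 1 / (c - 1))

theorem one_le_G {c : ℝ} (hc : 1 < c) : 1 ≤ G c := by
  have h : 0 < 1 / (c - 1) := by
    have : 0 < c - 1 := by linarith
    positivity
  have := Real.log_nonneg (by linarith : (1 : ℝ) ≤ 1 + 1 / (c - 1))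
  unfold G
  linarith

/-- The ratio of consecutive scales. -/
noncomputable def lam (c : ℝ) : ℝ := max 6 (8 / (c - 1))

noncomputable def ell (c : ℝ) : ℕ := ⌈Real.logb 2 (8 * lam c ^ 2 + 1)⌉₊

theorem lam_pos (c : ℝ) : 0 < lam c := lt_of_lt_of_le (by norm_num) (le_max_left _ _)

theorem le_two_pow_ell (c : ℝ) : 8 * lam c ^ 2 + 1 ≤ 2 ^ ell c := by
  have hpos : 0 < 8 * lam c ^ 2 + 1 := by have := lam_pos c; positivity
  have h1 : Real.logb 2 (8 * lam c ^ 2 + 1) ≤ ell c := Nat.le_ceil _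
  rw [Real.logb_le_iff_le_rpow (by norm_num) hpos] at h1
  rwa [Real.rpow_natCast] at h1

theorem log_two_gt : (0.693 : ℝ) < Real.log 2 := by
  have := Real.log_two_gt_d9; linarith

theorem ell_le {c : ℝ} (hc : 1 < c) : (ell c : ℝ) + 1 ≤ 12 * G c := by
  set t := 1 / (c - 1) with ht
  have hc0 : 0 < c - 1 := by linarith
  have ht0 : 0 < t := by positivity
  have hlam : lam c ≤ 8 * (1 + t) := by
    refine max_le (by linarith) ?_
    have : 8 / (c - 1) = 8 * t := by rw [ht]; ring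
    rw [this]; linarith
  have hl0 := lam_pos c
  have h1 : 8 * lam c ^ 2 + 1 ≤ 1024 * (1 + t) ^ 2 := by nlinarith [sq_nonneg t]
  have hpos : 0 < 8 * lam c ^ 2 + 1 := by positivity
  have h2 : Real.logb 2 (8 * lam c ^ 2 + 1) ≤ 10 + 2 * Real.logb 2 (1 + t) := by
    calc Real.logb 2 (8 * lam c ^ 2 + 1) ≤ Real.logb 2 (1024 * (1 + t) ^ 2) :=
          Real.logb_le_logb_of_le (by norm_num) hpos h1
      _ = 10 + 2 * Real.logb 2 (1 + t) := by
        rw [Real.logb_mul (by norm_num) (by positivity), Real.logb_pow]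
        have : Real.logb 2 1024 = 10 := by
          rw [show (1024 : ℝ) = 2 ^ (10 : ℕ) by norm_num, Real.logb_pow, Real.logb_self_eq_one
            (by norm_num)]
          norm_num
        rw [this]
        norm_num
  have h0 : 0 ≤ Real.logb 2 (8 * lam c ^ 2 + 1) :=
    Real.logb_nonneg (by norm_num) (by nlinarith [sq_nonneg (lam c)])
  have h3 : (ell c : ℝ) < Real.logb 2 (8 * lam c ^ 2 + 1) + 1 := Nat.ceil_lt_add_one h0
  have hlog : 0 ≤ Real.log (1 + t) := Real.log_nonneg (by linarith)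
  have h4 : Real.logb 2 (1 + t) ≤ 3 / 2 * Real.log (1 + t) := by
    unfold Real.logb
    rw [div_le_iff₀ (by linarith [log_two_gt])]
    nlinarith [log_two_gt]
  unfold G
  rw [← ht]
  linarith

theorem choose_le_aux (k l : ℕ) :
    (((k + 1) * l + k).choose k : ℝ) ≤ 3 ^ (k + 1) * ((l : ℝ) + 1) ^ k := by
  have h1 : (((k + 1) * l + k).choose k : ℝ) ≤ (((k + 1) * l + k : ℕ) : ℝ) ^ k / (k.factorial : ℝ) :=
    Nat.choose_le_pow_div _ _
  have h2 : (((k + 1) * l + k : ℕ) : ℝ) ≤ ((k : ℝ) + 1) * ((l : ℝ) + 1) := by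
    push_cast; linarith
  have hf : (0 : ℝ) < k.factorial := by exact_mod_cast k.factorial_pos
  have h3 : (((k + 1) * l + k : ℕ) : ℝ) ^ k / (k.factorial : ℝ) ≤
      (((k : ℝ) + 1) ^ k / k.factorial) * ((l : ℝ) + 1) ^ k := by
    rw [div_mul_eq_mul_div, ← mul_pow]
    gcongr
  have h4 : ((k : ℝ) + 1) ^ k / k.factorial = ((k : ℝ) + 1) ^ (k + 1) / (k + 1).factorial := by
    rw [Nat.factorial_succ, pow_succ]
    push_cast
    field_simp
  have h5 : ((k : ℝ) + 1) ^ (k + 1) / (k + 1).factorial ≤ Real.exp ((k : ℝ) + 1) :=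
    Real.pow_div_factorial_le_exp ((k : ℝ) + 1) (by positivity) _
  have h6 : Real.exp ((k : ℝ) + 1) ≤ 3 ^ (k + 1) := by
    have : Real.exp ((k : ℝ) + 1) = Real.exp 1 ^ (k + 1) := by
      rw [← Real.exp_nat_mul]; push_cast; ring_nf
    rw [this]
    have := Real.exp_one_lt_d9
    gcongr
    linarith
  have hl : (0 : ℝ) ≤ ((l : ℝ) + 1) ^ k := by positivity
  calc _ ≤ _ := h1
    _ ≤ _ := h3
    _ ≤ 3 ^ (k + 1) * ((l : ℝ) + 1) ^ k := by
      rw [h4]
      exact mul_le_mul_of_nonneg_right (h5.trans h6) hl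

theorem final_bound (k l : ℕ) (g : ℝ) (hg : 1 ≤ g) (hl : (l : ℝ) + 1 ≤ 12 * g) (B : ℝ)
    (hB : 1 ≤ B) :
    1 + 12 * (9 * B) ^ (k + 1) * (((k + 1) * l + k).choose k : ℝ) ≤
      (13 * 27 * 12 * B) ^ (k + 1) * g ^ k := by
  have h1 := choose_le_aux k l
  have h2 : ((l : ℝ) + 1) ^ k ≤ (12 * g) ^ k := by gcongr
  have h3 : (((k + 1) * l + k).choose k : ℝ) ≤ 3 ^ (k + 1) * (12 * g) ^ k :=
    h1.trans (mul_le_mul_of_nonneg_left h2 (by positivity))
  have h4 : (12 * g) ^ k ≤ 12 ^ (k + 1) * g ^ k := by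
    rw [mul_pow, pow_succ]
    have : (0 : ℝ) ≤ 12 ^ k * g ^ k := by positivity
    nlinarith
  have h5 : (((k + 1) * l + k).choose k : ℝ) ≤ 3 ^ (k + 1) * (12 ^ (k + 1) * g ^ k) :=
    h3.trans (mul_le_mul_of_nonneg_left h4 (by positivity))
  have h6 : (12 : ℝ) * (9 * B) ^ (k + 1) * (((k + 1) * l + k).choose k : ℝ) ≤
      12 * ((27 * 12 * B) ^ (k + 1) * g ^ k) := by
    calc (12 : ℝ) * (9 * B) ^ (k + 1) * (((k + 1) * l + k).choose k : ℝ) ≤
        12 * (9 * B) ^ (k + 1) * (3 ^ (k + 1) * (12 ^ (k + 1) * g ^ k)) :=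
          mul_le_mul_of_nonneg_left h5 (by positivity)
      _ = 12 * ((27 * 12 * B) ^ (k + 1) * g ^ k) := by
        have e : (27 * 12 * B : ℝ) ^ (k + 1) = (9 * B) ^ (k + 1) * 3 ^ (k + 1) * 12 ^ (k + 1) := by
          rw [← mul_pow, ← mul_pow]
          congr 1
          ring
        rw [e]
        generalize (9 * B) ^ (k + 1) = a1
        generalize (3 : ℝ) ^ (k + 1) = a2
        generalize (12 : ℝ) ^ (k + 1) = a3
        ring
  have h7 : (1 : ℝ) ≤ (27 * 12 * B) ^ (k + 1) * g ^ k :=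
    one_le_mul_of_one_le_of_one_le (one_le_pow₀ (by linarith)) (one_le_pow₀ hg)
  have h8 : (13 : ℝ) * ((27 * 12 * B) ^ (k + 1) * g ^ k) ≤ (13 * 27 * 12 * B) ^ (k + 1) * g ^ k := by
    have e : (13 * 27 * 12 * B : ℝ) ^ (k + 1) = 13 ^ (k + 1) * (27 * 12 * B) ^ (k + 1) := by
      rw [← mul_pow]
      congr 1
      ring
    rw [e, mul_assoc ((13 : ℝ) ^ (k + 1))]
    have h13 : (13 : ℝ) ≤ 13 ^ (k + 1) := by
      rw [pow_succ]
      have : (1 : ℝ) ≤ 13 ^ k := one_le_pow₀ (by norm_num)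
      linarith
    exact mul_le_mul_of_nonneg_right h13 (by linarith)
  linarith

theorem Embeds.mono {E : Type} {ρ : E → E → ℝ} {M : Finset E} {c : ℝ} {m m' : ℕ}
    (h : Embeds ρ M c m) (hm : m ≤ m') : Embeds ρ M c m' := by
  obtain ⟨V, hV, G, w, h1, h2, h3, h4⟩ := h
  exact ⟨V, hV, G, w, h1, h2, h3.trans hm, h4⟩

/-- Upper bound for `ℓ_1^(k+1)`. -/
theorem upper_one (k : ℕ) (c : ℝ) (hc : 1 < c) (M : Finset (Fin (k + 1) → ℝ)) (hM : M.Nonempty) :
    Embeds dOne M c (M.card * (1 + 6 * 9 ^ (k + 1) * (2 * ((k + 1) * ell c + k).choose k))) := by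
  have hl6 : 6 ≤ lam c := le_max_left _ _
  have hc0 : 0 < c - 1 := by linarith
  obtain ⟨S, hS, hr⟩ := spanner (dOne_symm (d := k + 1)) dOne_tri dOne_self dOne_pos
    (2 * ((k + 1) * ell c + k).choose k) (9 ^ (k + 1)) ((k + 1) * ell c) (lam c) hl6
    (fun Y hY => exact_net_one k _ Y hY)
    (by
      intro s z r hr hsep hball
      have := dOne_packing s z (4 * r) r hr (by linarith) hball hsep
      have e : 2 * (4 * r) / r + 1 = 9 := by field_simp; norm_num
      rw [e] at this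
      exact_mod_cast this)
    (by
      intro s z r hr hsep hball
      have := dOne_packing s z (4 * lam c ^ 2 * r) r hr (by positivity) hball hsep
      have e : 2 * (4 * lam c ^ 2 * r) / r + 1 = 8 * lam c ^ 2 + 1 := by field_simp; ring
      rw [e] at this
      have h2 : (8 * lam c ^ 2 + 1) ^ (k + 1) ≤ ((2 : ℝ) ^ ell c) ^ (k + 1) :=
        pow_le_pow_left₀ (by positivity) (le_two_pow_ell c) _
      rw [← pow_mul, mul_comm (ell c)] at h2
      exact_mod_cast this.trans h2)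
    M
  refine (embeds_of_reach dOne_symm dOne_tri dOne_self dOne_pos M hM c S ?_).mono hS
  intro x hx y hy
  refine (hr x hx y hy).mono (mul_le_mul_of_nonneg_right ?_ (dOne_nonneg _ _))
  have h8 : 8 / (c - 1) ≤ lam c := le_max_right _ _
  have : 8 / lam c ≤ c - 1 := by
    rw [div_le_iff₀ hc0] at h8
    rw [div_le_iff₀ (lam_pos c)]
    linarith
  linarith

/-- Upper bound for `ℓ_∞^(k+1)`. -/
theorem upper_inf (k : ℕ) (c : ℝ) (hc : 1 < c) (M : Finset (Fin (k + 1) → ℝ)) (hM : M.Nonempty) :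
    Embeds dInf M c (M.card * (1 + 6 * 9 ^ (k + 1) *
      ((k + 1).factorial * 2 ^ (k + 1) * (2 * ((k + 1) * ell c + k).choose k)))) := by
  have hl6 : 6 ≤ lam c := le_max_left _ _
  have hc0 : 0 < c - 1 := by linarith
  obtain ⟨S, hS, hr⟩ := spanner (dInf_symm (d := k + 1)) dInf_tri dInf_self dInf_pos
    ((k + 1).factorial * 2 ^ (k + 1) * (2 * ((k + 1) * ell c + k).choose k))
    (9 ^ (k + 1)) ((k + 1) * ell c) (lam c) hl6
    (fun Y hY => exact_net_inf k _ Y hY)
    (by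
      intro s z r hr hsep hball
      have := dInf_packing s z (4 * r) r hr (by linarith) hball hsep
      have e : 2 * (4 * r) / r + 1 = 9 := by field_simp; norm_num
      rw [e] at this
      exact_mod_cast this)
    (by
      intro s z r hr hsep hball
      have := dInf_packing s z (4 * lam c ^ 2 * r) r hr (by positivity) hball hsep
      have e : 2 * (4 * lam c ^ 2 * r) / r + 1 = 8 * lam c ^ 2 + 1 := by field_simp; ring
      rw [e] at this
      have h2 : (8 * lam c ^ 2 + 1) ^ (k + 1) ≤ ((2 : ℝ) ^ ell c) ^ (k + 1) :=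
        pow_le_pow_left₀ (by positivity) (le_two_pow_ell c) _
      rw [← pow_mul, mul_comm (ell c)] at h2
      exact_mod_cast this.trans h2)
    M
  refine (embeds_of_reach dInf_symm dInf_tri dInf_self dInf_pos M hM c S ?_).mono hS
  intro x hx y hy
  refine (hr x hx y hy).mono (mul_le_mul_of_nonneg_right ?_ (dInf_nonneg _ _))
  have h8 : 8 / (c - 1) ≤ lam c := le_max_right _ _
  have : 8 / lam c ≤ c - 1 := by
    rw [div_le_iff₀ hc0] at h8
    rw [div_le_iff₀ (lam_pos c)]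
    linarith
  linarith

/-- Exact embeddings. -/
theorem upper_one_exact (k : ℕ) (M : Finset (Fin (k + 1) → ℝ)) (hM : M.Nonempty) :
    Embeds dOne M 1 (M.card * (2 * (Nat.clog 2 M.card + k).choose k)) := by
  obtain ⟨S, hS, hr⟩ := exact_net_one k (Nat.clog 2 M.card) M (Nat.le_pow_clog (by norm_num) _)
  refine (embeds_of_reach dOne_symm dOne_tri dOne_self dOne_pos M hM 1 S ?_).mono hS
  intro x hx y hy
  rw [one_mul]
  exact hr x hx y hy

theorem upper_inf_exact (k : ℕ) (M : Finset (Fin (k + 1) → ℝ)) (hM : M.Nonempty) :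
    Embeds dInf M 1 (M.card * ((k + 1).factorial * 2 ^ (k + 1) *
      (2 * (Nat.clog 2 M.card + k).choose k))) := by
  obtain ⟨S, hS, hr⟩ := exact_net_inf k (Nat.clog 2 M.card) M (Nat.le_pow_clog (by norm_num) _)
  refine (embeds_of_reach dInf_symm dInf_tri dInf_self dInf_pos M hM 1 S ?_).mono hS
  intro x hx y hy
  rw [one_mul]
  exact hr x hx y hy

theorem choose_add_le (L k : ℕ) : (L + k).choose k ≤ (L + 1) ^ k := by
  induction k with
  | zero => simp
  | succ k ih =>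
    have h := Nat.add_one_mul_choose_eq (L + k) k
    have e : (L + (k + 1)) = (L + k).succ := rfl
    rw [e]
    have h1 : (k + 1) * ((L + k).succ.choose (k + 1)) ≤ (k + 1) * (L + 1) ^ (k + 1) := by
      calc (k + 1) * ((L + k).succ.choose (k + 1)) = (L + k).succ * (L + k).choose k := by
            rw [h]; ring
        _ ≤ ((k + 1) * (L + 1)) * (L + 1) ^ k := by
          refine Nat.mul_le_mul ?_ ih
          rw [Nat.succ_eq_add_one]
          nlinarith
        _ = (k + 1) * (L + 1) ^ (k + 1) := by rw [pow_succ]; ring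
    exact Nat.le_of_mul_le_mul_left h1 (Nat.succ_pos k)

theorem clog_le (n : ℕ) (hn : 2 ≤ n) : (Nat.clog 2 n : ℝ) + 1 ≤ 5 * Real.log n := by
  have h1 : 2 ^ (Nat.clog 2 n).pred < n := Nat.pow_pred_clog_lt_self (by norm_num) (by omega)
  have hpos : 0 < Nat.clog 2 n := Nat.clog_pos (by norm_num) hn
  obtain ⟨l, hl⟩ : ∃ l, Nat.clog 2 n = l + 1 := ⟨Nat.clog 2 n - 1, by omega⟩
  rw [hl] at h1 ⊢
  simp only [Nat.pred_eq_sub_one, Nat.add_sub_cancel] at h1
  have h2 : (l : ℝ) * Real.log 2 ≤ Real.log n := by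
    rw [← Real.log_pow]
    refine Real.log_le_log (by positivity) ?_
    exact_mod_cast h1.le
  have h3 : Real.log 2 ≤ Real.log n := Real.log_le_log (by norm_num) (by exact_mod_cast hn)
  have h4 := log_two_gt
  push_cast
  nlinarith

end Pool.Agent.Helper39.Net
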