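import Pool.Agent.Helper39.Net.Bounds

/-!
# The numbers `E_p(n, c, d)` and `C_p(c, d)`
-/

namespace Pool.Agent.Helper39.Net

open Set

/-- The numbers `m` such that every `n`-point subset of `(E, ρ)` embeds with distortion `c` into
some weighted graph with at most `m` edges. -/
def Enough {E : Type} (ρ : E → E → ℝ) (n : ℕ) (c : ℝ) : Set ℕ :=
  {m | ∀ M : Finset E, M.card = n → Embeds ρ M c m}

/-- The least number of edges (`E_p(n, c, d)` in the problem). -/
noncomputable def EN {E : Type} (ρ : E → E → ℝ) (n : ℕ) (c : ℝ) : ℕ := sInf (Enough ρ n c)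

/-- The values `E_p(n, c, d) / n` for `n ≥ 2`. -/
def Ratios {E : Type} (ρ : E → E → ℝ) (c : ℝ) : Set ℝ :=
  {r | ∃ n : ℕ, 2 ≤ n ∧ r = (EN ρ n c : ℝ) / n}

/-- The supremum of `E_p(n, c, d) / n` over `n ≥ 2` (`C_p(c, d)` in the problem). -/
noncomputable def CN {E : Type} (ρ : E → E → ℝ) (c : ℝ) : ℝ := sSup (Ratios ρ c)

variable {E : Type} {ρ : E → E → ℝ}

theorem Embeds.mono_c {M : Finset E} {c c' : ℝ} {m : ℕ}
    (h : Embeds ρ M c m) (hc : c ≤ c') (hρ : ∀ x y, 0 ≤ ρ x y) : Embeds ρ M c' m := by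
  obtain ⟨V, hV, G, w, h1, h2, h3, f, s, hs, h4⟩ := h
  refine ⟨V, hV, G, w, h1, h2, h3, f, s, hs, fun x hx y hy => ⟨(h4 x hx y hy).1, ?_⟩⟩
  exact (h4 x hx y hy).2.trans (mul_le_mul_of_nonneg_right hc (mul_nonneg hs.le (hρ x y)))

theorem EN_le {n m : ℕ} {c : ℝ} (h : m ∈ Enough ρ n c) : EN ρ n c ≤ m := Nat.sInf_le h

theorem EN_mem {n : ℕ} {c : ℝ} (h : (Enough ρ n c).Nonempty) : EN ρ n c ∈ Enough ρ n c :=
  Nat.sInf_mem h

/-- Two distinct points need an edge. -/
theorem one_le_EN_two {c : ℝ} (h : (Enough ρ 2 c).Nonempty) {x y : E} (hxy : x ≠ y) (hpos : 0 < ρ x y) :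
    1 ≤ EN ρ 2 c := by
  classical
  by_contra h0
  have h0 : EN ρ 2 c = 0 := by omega
  have hm := EN_mem h
  rw [h0] at hm
  obtain ⟨V, hV, G, w, hG, hw, hcard, f, s, hs, hf⟩ := hm {x, y} (Finset.card_pair hxy)
  have hfin : G.edgeSet.Finite := toFinite _
  have hempty : G.edgeSet = ∅ := by
    rw [← ncard_eq_zero hfin]; omega
  have hbot : G = ⊥ := SimpleGraph.edgeSet_eq_empty.1 hempty
  have hxy' : f x = f y := by
    have hr := hG.preconnected (f x) (f y)
    rw [hbot] at hr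
    exact SimpleGraph.reachable_bot.1 hr
  have h1 := (hf x (by simp) y (by simp)).1
  rw [hxy', gdist_self hw] at h1
  have := mul_pos hs hpos
  linarith

/-- The lower bound for the number of edges. -/
theorem EN_lower [Infinite E] (k n : ℕ) (hn : 2 ^ (k + 1) ≤ n) (pt : ℕ → E)
    (hpt : ∀ i < 2 ^ (k + 1), ∀ i' < 2 ^ (k + 1), ρ (pt i) (pt i') =
      |(i : ℝ) - i'| + |(rv (k + 1) i : ℝ) - rv (k + 1) i'|)
    (c : ℝ) (hc : 1 ≤ c) (hck : (c - 1) * 2 ^ (k + 1) < 1) (hne : (Enough ρ n c).Nonempty) :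
    (k + 1) * 2 ^ k ≤ 2 * EN ρ n c := by
  classical
  let M0 : Finset E := (Finset.range (2 ^ (k + 1))).image pt
  have hM0 : M0.card ≤ n := by
    refine Finset.card_image_le.trans ?_
    rwa [Finset.card_range]
  obtain ⟨M, hM, hcard⟩ := Infinite.exists_superset_card_eq M0 n hM0
  exact lower_bound ρ k pt hpt M
    (fun i hi => hM (Finset.mem_image_of_mem _ (Finset.mem_range.2 hi))) c hc hck _
    (EN_mem hne M hcard)

/-- The planar points inside `ℓ_1^(k+2)`. -/
def ptOne (K k : ℕ) (i : ℕ) : Fin (k + 2) → ℝ :=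
  fun j => if j.val = 0 then (i : ℝ) else if j.val = 1 then (rv K i : ℝ) else 0

theorem dOne_ptOne (K k i i' : ℕ) : dOne (ptOne K k i) (ptOne K k i') =
    |(i : ℝ) - i'| + |(rv K i : ℝ) - rv K i'| := by
  unfold dOne
  rw [Fin.sum_univ_succ, Fin.sum_univ_succ]
  have : ∑ j : Fin k, |ptOne K k i j.succ.succ - ptOne K k i' j.succ.succ| = 0 := by
    refine Finset.sum_eq_zero fun j _ => ?_
    simp [ptOne]
  rw [this]
  simp [ptOne]

/-- The planar points inside `ℓ_∞^(k+2)`. -/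
def ptInf (K k : ℕ) (i : ℕ) : Fin (k + 2) → ℝ :=
  fun j => if j.val = 0 then (i : ℝ) + rv K i else if j.val = 1 then (i : ℝ) - rv K i else 0

theorem dInf_ptInf (K k i i' : ℕ) : dInf (ptInf K k i) (ptInf K k i') =
    |(i : ℝ) - i'| + |(rv K i : ℝ) - rv K i'| := by
  unfold dInf
  refine le_antisymm ?_ ?_
  · rw [pi_norm_le_iff_of_nonneg (by positivity)]
    intro j
    simp only [Pi.sub_apply, ptInf, Real.norm_eq_abs]
    split_ifs
    · have e : (i : ℝ) + rv K i - (i' + rv K i') = (i - i') + (rv K i - rv K i') := by ring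
      rw [e]
      exact abs_add_le _ _
    · have e : (i : ℝ) - rv K i - (i' - rv K i') = (i - i') - (rv K i - rv K i') := by ring
      rw [e]
      exact abs_sub _ _
    · simp only [sub_self, abs_zero]
      positivity
  · have h0 : |((i : ℝ) - i') + (rv K i - rv K i')| ≤ ‖ptInf K k i - ptInf K k i'‖ := by
      have := norm_le_pi_norm (ptInf K k i - ptInf K k i') 0
      simp only [Pi.sub_apply, ptInf, Real.norm_eq_abs] at this
      have e : (i : ℝ) + rv K i - (i' + rv K i') = (i - i') + (rv K i - rv K i') := by ring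
      simpa [e] using this
    have h1 : |((i : ℝ) - i') - (rv K i - rv K i')| ≤ ‖ptInf K k i - ptInf K k i'‖ := by
      have := norm_le_pi_norm (ptInf K k i - ptInf K k i') 1
      simp only [Pi.sub_apply, ptInf, Real.norm_eq_abs] at this
      have e : (i : ℝ) - rv K i - (i' - rv K i') = (i - i') - (rv K i - rv K i') := by ring
      simpa [e] using this
    have h2 : |(i : ℝ) - i'| + |(rv K i : ℝ) - rv K i'| ≤
        max |((i : ℝ) - i') + (rv K i - rv K i')| |((i : ℝ) - i') - (rv K i - rv K i')| := by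
      rcases abs_cases ((i : ℝ) - i') with ⟨h, -⟩ | ⟨h, -⟩ <;>
      rcases abs_cases ((rv K i : ℝ) - rv K i') with ⟨h', -⟩ | ⟨h', -⟩ <;> rw [h, h']
      · exact le_max_of_le_left (le_abs_self _)
      · refine le_max_of_le_right (le_trans (le_of_eq ?_) (le_abs_self _)); ring
      · refine le_max_of_le_right (le_trans (le_of_eq ?_) (neg_le_abs _)); ring
      · refine le_max_of_le_left (le_trans (le_of_eq ?_) (neg_le_abs _)); ring
    exact h2.trans (max_le h0 h1)

/-- Both lower bounds, for any metric containing the planar sets. -/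
theorem lower_final [Infinite E]
    (hpt : ∀ K : ℕ, ∃ pt : ℕ → E, ∀ i i' : ℕ,
      ρ (pt i) (pt i') = |(i : ℝ) - i'| + |(rv K i : ℝ) - rv K i'|)
    (hne : ∀ n : ℕ, 1 ≤ n → ∀ c : ℝ, 1 ≤ c → (Enough ρ n c).Nonempty)
    (hbd : ∀ c : ℝ, 1 < c → BddAbove (Ratios ρ c)) (h2 : ∀ c : ℝ, 1 ≤ c → 1 ≤ EN ρ 2 c) :
    (∀ c : ℝ, 1 < c → G c ≤ 16 * CN ρ c) ∧
      ∀ n : ℕ, 2 ≤ n → (n : ℝ) * Real.log n ≤ 16 * EN ρ n 1 := by
  have hlog2 : Real.log 2 < 0.7 := by have := Real.log_two_lt_d9; linarith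
  constructor
  · intro c hc
    have hc0 : 0 < c - 1 := by linarith
    set t := 1 / (c - 1) with ht
    have ht0 : 0 < t := by positivity
    by_cases h4 : t < 4
    · have h5 : (1 : ℝ) / 2 ≤ CN ρ c := by
        refine le_trans ?_ (le_csSup (hbd c hc) ⟨2, le_rfl, rfl⟩)
        have : (1 : ℝ) ≤ EN ρ 2 c := by exact_mod_cast h2 c hc.le
        push_cast
        linarith
      have h6 : Real.log (1 + t) ≤ Real.log 8 := Real.log_le_log (by linarith) (by linarith)
      have h7 : Real.log 8 = 3 * Real.log 2 := by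
        rw [show (8 : ℝ) = 2 ^ (3 : ℕ) by norm_num, Real.log_pow]; norm_num
      unfold G
      rw [← ht]
      linarith
    · push Not at h4
      set N := ⌊t / 2⌋₊ with hN
      have hN2 : 2 ≤ N := Nat.le_floor (by push_cast; linarith)
      obtain ⟨k, hk⟩ : ∃ k, Nat.log 2 N = k + 1 :=
        ⟨Nat.log 2 N - 1, by have := Nat.log_pos (b := 2) (by norm_num) hN2; omega⟩
      have hle : 2 ^ (k + 1) ≤ N := by rw [← hk]; exact Nat.pow_log_le_self 2 (by omega)
      have hlt : N < 2 ^ (k + 2) := by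
        have := Nat.lt_pow_succ_log_self (b := 2) (by norm_num) N
        rwa [hk] at this
      have hNt : (N : ℝ) ≤ t / 2 := Nat.floor_le (by positivity)
      have hle' : (2 : ℝ) ^ (k + 1) ≤ N := by exact_mod_cast hle
      have hck : (c - 1) * 2 ^ (k + 1) < 1 := by
        have h5 : (2 : ℝ) ^ (k + 1) < t := by linarith
        have h6 : (c - 1) * t = 1 := by rw [ht]; field_simp
        calc (c - 1) * 2 ^ (k + 1) < (c - 1) * t := mul_lt_mul_of_pos_left h5 hc0
          _ = 1 := h6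
      have h1 : 1 ≤ 2 ^ (k + 1) := Nat.one_le_two_pow
      have h22 : 2 ≤ 2 ^ (k + 1) := by
        rw [pow_succ]; have := Nat.one_le_two_pow (n := k); omega
      obtain ⟨pt, hpt⟩ := hpt (k + 1)
      have hE := EN_lower k (2 ^ (k + 1)) le_rfl pt (fun i _ i' _ => hpt i i') c hc.le hck
        (hne _ h1 c hc.le)
      have hE' : ((k : ℝ) + 1) * 2 ^ k ≤ 2 * EN ρ (2 ^ (k + 1)) c := by exact_mod_cast hE
      have h5 : ((k : ℝ) + 1) / 4 ≤ CN ρ c := by
        refine le_trans ?_ (le_csSup (hbd c hc) ⟨2 ^ (k + 1), h22, rfl⟩)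
        have hp : (0 : ℝ) < 2 ^ (k + 1) := by positivity
        push_cast
        rw [le_div_iff₀ hp, pow_succ]
        linarith
      have h6 : 1 + t ≤ 2 ^ (k + 4) := by
        have h7 : t / 2 < N + 1 := Nat.lt_floor_add_one _
        have h8 : (N : ℝ) + 1 ≤ 2 ^ (k + 2) := by exact_mod_cast hlt
        have h9 : (2 : ℝ) ^ (k + 4) = 4 * 2 ^ (k + 2) := by ring
        linarith
      have h7 : Real.log (1 + t) ≤ (k + 4) * Real.log 2 := by
        have := Real.log_le_log (by linarith) h6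
        rw [Real.log_pow] at this
        push_cast at this
        exact this
      have hk0 : (0 : ℝ) ≤ k := Nat.cast_nonneg k
      have h8 : ((k : ℝ) + 4) * Real.log 2 ≤ (k + 4) * 0.7 :=
        mul_le_mul_of_nonneg_left hlog2.le (by linarith)
      unfold G
      rw [← ht]
      linarith
  · intro n hn
    obtain ⟨k, hk⟩ : ∃ k, Nat.log 2 n = k + 1 :=
      ⟨Nat.log 2 n - 1, by have := Nat.log_pos (b := 2) (by norm_num) hn; omega⟩
    have hle : 2 ^ (k + 1) ≤ n := by rw [← hk]; exact Nat.pow_log_le_self 2 (by omega)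
    have hlt : n < 2 ^ (k + 2) := by
      have := Nat.lt_pow_succ_log_self (b := 2) (by norm_num) n
      rwa [hk] at this
    obtain ⟨pt, hpt⟩ := hpt (k + 1)
    have hE := EN_lower k n hle pt (fun i _ i' _ => hpt i i') 1 le_rfl (by norm_num)
      (hne n (by omega) 1 le_rfl)
    have hE' : ((k : ℝ) + 1) * 2 ^ k ≤ 2 * EN ρ n 1 := by exact_mod_cast hE
    have hlt' : (n : ℝ) ≤ 2 ^ (k + 2) := by exact_mod_cast hlt.le
    have hn0 : (0 : ℝ) < n := by exact_mod_cast (by omega : 0 < n)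
    have hk0 : (0 : ℝ) ≤ k := Nat.cast_nonneg k
    have h1 : Real.log n ≤ (k + 2) * Real.log 2 := by
      have := Real.log_le_log hn0 hlt'
      rw [Real.log_pow] at this
      push_cast at this
      exact this
    have h2 : Real.log n ≤ 2 * (k + 1) := by
      have h8 : ((k : ℝ) + 2) * Real.log 2 ≤ (k + 2) * 0.7 :=
        mul_le_mul_of_nonneg_left hlog2.le (by linarith)
      linarith
    calc (n : ℝ) * Real.log n ≤ 2 ^ (k + 2) * (2 * (k + 1)) :=
          mul_le_mul hlt' h2 (Real.log_nonneg (by exact_mod_cast (by omega : 1 ≤ n))) (by positivity)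
      _ = 8 * (((k : ℝ) + 1) * 2 ^ k) := by ring
      _ ≤ 16 * EN ρ n 1 := by linarith

end Pool.Agent.Helper39.Net
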