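import Pool.Agent.Helper39.Net.Reach

/-!
# Exact networks in `ℓ_1^d`
-/

namespace Pool.Agent.Helper39.Net

open Set

/-- The `ℓ_1` distance on `ℝ^d`. -/
def dOne {d : ℕ} (x y : Fin d → ℝ) : ℝ := ∑ i, |x i - y i|

variable {d : ℕ}

theorem dOne_symm (x y : Fin d → ℝ) : dOne x y = dOne y x := by
  unfold dOne
  exact Finset.sum_congr rfl fun i _ => abs_sub_comm _ _

theorem dOne_self (x : Fin d → ℝ) : dOne x x = 0 := by simp [dOne]

theorem dOne_nonneg (x y : Fin d → ℝ) : 0 ≤ dOne x y :=
  Finset.sum_nonneg fun i _ => abs_nonneg _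

theorem dOne_tri (x y z : Fin d → ℝ) : dOne x z ≤ dOne x y + dOne y z := by
  unfold dOne
  rw [← Finset.sum_add_distrib]
  exact Finset.sum_le_sum fun i _ => abs_sub_le _ _ _

theorem dOne_pos (x y : Fin d → ℝ) (h : x ≠ y) : 0 < dOne x y := by
  obtain ⟨i, hi⟩ := Function.ne_iff.1 h
  exact Finset.sum_pos' (fun i _ => abs_nonneg _) ⟨i, Finset.mem_univ i, abs_pos.2 (sub_ne_zero.2 hi)⟩

theorem dOne_update (x : Fin d → ℝ) (i : Fin d) (m : ℝ) :
    dOne x (Function.update x i m) = |x i - m| := by
  unfold dOne
  rw [Finset.sum_eq_single i]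
  · simp
  · intro j _ hj
    simp [Function.update_of_ne hj]
  · simp

theorem dOne_update_update (x y : Fin d → ℝ) (i : Fin d) (m : ℝ) :
    dOne (Function.update x i m) (Function.update y i m) + |x i - y i| = dOne x y := by
  unfold dOne
  rw [← Finset.add_sum_erase Finset.univ _ (Finset.mem_univ i),
    ← Finset.add_sum_erase Finset.univ (fun j => |x j - y j|) (Finset.mem_univ i)]
  have : ∑ j ∈ Finset.univ.erase i, |Function.update x i m j - Function.update y i m j| =
      ∑ j ∈ Finset.univ.erase i, |x j - y j| := by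
    refine Finset.sum_congr rfl fun j hj => ?_
    rw [Function.update_of_ne (Finset.ne_of_mem_erase hj),
      Function.update_of_ne (Finset.ne_of_mem_erase hj)]
  rw [this]
  simp [add_comm]

/-- The `t` points with the smallest values. -/
theorem exists_low {E : Type} (f : E → ℝ) (Y : Finset E) (t : ℕ) (ht : t ≤ Y.card) :
    ∃ Y1 ⊆ Y, Y1.card = t ∧ ∀ x ∈ Y1, ∀ y ∈ Y, y ∉ Y1 → f x ≤ f y := by
  classical
  induction t with
  | zero => exact ⟨∅, Finset.empty_subset _, rfl, by simp⟩
  | succ t ih =>
    obtain ⟨Y1, hY1, hcard, hlow⟩ := ih (by omega)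
    have hne : (Y \ Y1).Nonempty := by
      rw [← Finset.card_pos, Finset.card_sdiff_of_subset hY1]
      omega
    obtain ⟨a, ha, hmin⟩ := Finset.exists_min_image (Y \ Y1) f hne
    rw [Finset.mem_sdiff] at ha
    refine ⟨insert a Y1, ?_, ?_, ?_⟩
    · intro x hx
      rcases Finset.mem_insert.1 hx with rfl | hx
      · exact ha.1
      · exact hY1 hx
    · rw [Finset.card_insert_of_notMem ha.2, hcard]
    · intro x hx y hy hy'
      rw [Finset.mem_insert, not_or] at hy'
      rcases Finset.mem_insert.1 hx with rfl | hx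
      · exact hmin y (Finset.mem_sdiff.2 ⟨hy, hy'.2⟩)
      · exact hlow x hx y hy hy'.2

theorem path_net (i : Fin d) (Y : Finset (Fin d → ℝ))
    (hA : ∀ x ∈ Y, ∀ y ∈ Y, ∀ j, j ≠ i → x j = y j) :
    ∃ S : Finset ((Fin d → ℝ) × (Fin d → ℝ)), S.card ≤ Y.card ∧
      ∀ x ∈ Y, ∀ y ∈ Y, Reach dOne (S : Set _) x y (dOne x y) := by
  classical
  induction Y using Finset.induction_on_max_value (fun x : Fin d → ℝ => x i) with
  | empty => exact ⟨∅, by simp, by simp⟩
  | @insert a s ha hmax ih =>
    obtain ⟨S, hS, hr⟩ := ih fun x hx y hy => hA x (Finset.mem_insert_of_mem hx) y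
      (Finset.mem_insert_of_mem hy)
    rcases s.eq_empty_or_nonempty with rfl | hne
    · refine ⟨∅, by simp, ?_⟩
      simp only [insert_empty_eq, Finset.mem_singleton]
      rintro x rfl y rfl
      exact Reach.refl (dOne_nonneg _ _)
    · obtain ⟨b, hb, hbmax⟩ := Finset.exists_max_image s (fun x => x i) hne
      have hab : ∀ x ∈ s, dOne x b + dOne b a = dOne x a := by
        intro x hx
        have h1 : ∀ x y : Fin d → ℝ, (∀ j, j ≠ i → x j = y j) → dOne x y = |x i - y i| := by
          intro x y h
          unfold dOne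
          rw [Finset.sum_eq_single i]
          · intro j _ hj
            rw [h j hj]; simp
          · simp
        rw [h1 x b (hA x (Finset.mem_insert_of_mem hx) b (Finset.mem_insert_of_mem hb)),
          h1 b a (hA b (Finset.mem_insert_of_mem hb) a (Finset.mem_insert_self _ _)),
          h1 x a (hA x (Finset.mem_insert_of_mem hx) a (Finset.mem_insert_self _ _))]
        have e1 : x i ≤ b i := hbmax x hx
        have e2 : b i ≤ a i := hmax b hb
        rw [abs_of_nonpos (by linarith), abs_of_nonpos (by linarith), abs_of_nonpos (by linarith)]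
        ring
      have hsub : (S : Set ((Fin d → ℝ) × (Fin d → ℝ))) ⊆
          ((insert (b, a) S : Finset ((Fin d → ℝ) × (Fin d → ℝ))) : Set _) := by
        intro p hp
        exact Finset.mem_coe.2 (Finset.mem_insert_of_mem hp)
      refine ⟨insert (b, a) S, ?_, ?_⟩
      · rw [Finset.card_insert_of_notMem ha]
        exact (Finset.card_insert_le _ _).trans (by omega)
      · have hxa : ∀ x ∈ s, Reach dOne ((insert (b, a) S : Finset _) : Set _) x a (dOne x a) := by
          intro x hx
          rw [← hab x hx]
          exact ((hr x hx b hb).mono_set hsub).trans (Reach.edge (by simp))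
        intro x hx y hy
        rcases Finset.mem_insert.1 hx with hx1 | hx1 <;>
          rcases Finset.mem_insert.1 hy with hy1 | hy1
        · subst hx1; subst hy1
          exact Reach.refl (dOne_nonneg _ _)
        · have := (hxa y hy1).symm dOne_symm
          rw [hx1, dOne_symm a y]
          exact this
        · rw [hy1]
          exact hxa x hx1
        · exact (hr x hx1 y hy1).mono_set hsub

theorem exact_net_aux (d k : ℕ) : ∀ (L : ℕ) (A : Finset (Fin d)), A.card = k + 1 →
    ∀ Y : Finset (Fin d → ℝ), Y.card ≤ 2 ^ L → (∀ x ∈ Y, ∀ y ∈ Y, ∀ i ∉ A, x i = y i) →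
    ∃ S : Finset ((Fin d → ℝ) × (Fin d → ℝ)),
      S.card + Y.card ≤ Y.card * (2 * (L + k).choose k) ∧
      ∀ x ∈ Y, ∀ y ∈ Y, Reach dOne (S : Set _) x y (dOne x y) := by
  classical
  induction k with
  | zero =>
    intro L A hA Y _ hY
    obtain ⟨i, rfl⟩ := Finset.card_eq_one.1 hA
    obtain ⟨S, hS, hr⟩ := path_net i Y fun x hx y hy j hj => hY x hx y hy j (by simpa using hj)
    exact ⟨S, by rw [Nat.choose_zero_right]; omega, hr⟩
  | succ k ihk =>
    intro L
    induction L with
    | zero =>
      intro A _ Y hcard _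
      refine ⟨∅, ?_, ?_⟩
      · simp only [Finset.card_empty, zero_add, Nat.choose_self]
        omega
      · intro x hx y hy
        have : x = y := Finset.card_le_one.1 (by simpa using hcard) x hx y hy
        subst this
        exact Reach.refl (dOne_nonneg _ _)
    | succ L ihL =>
      intro A hA Y hcard hY
      have hmono : (L + (k + 1)).choose (k + 1) ≤ (L + 1 + (k + 1)).choose (k + 1) :=
        Nat.choose_le_choose _ (by omega)
      by_cases hsmall : Y.card ≤ 2 ^ L
      · obtain ⟨S, hS, hr⟩ := ihL A hA Y hsmall hY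
        exact ⟨S, hS.trans (Nat.mul_le_mul_left _ (Nat.mul_le_mul_left _ hmono)), hr⟩
      · push Not at hsmall
        obtain ⟨i, hi⟩ : A.Nonempty := by
          rw [← Finset.card_pos]; omega
        obtain ⟨Y1, hY1, hc1, hlow⟩ := exists_low (fun x : Fin d → ℝ => x i) Y (2 ^ L) hsmall.le
        have hne1 : Y1.Nonempty := by
          rw [← Finset.card_pos, hc1]; positivity
        obtain ⟨a, ha, hamax⟩ := Finset.exists_max_image Y1 (fun x => x i) hne1
        set m := a i with hm
        set Y2 := Y \ Y1 with hY2
        have hc2 : Y2.card ≤ 2 ^ L := by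
          rw [hY2, Finset.card_sdiff_of_subset hY1, hc1]
          rw [pow_succ] at hcard
          omega
        have hcsum : Y1.card + Y2.card = Y.card := by
          rw [hY2, Finset.card_sdiff_of_subset hY1]
          have := Finset.card_le_card hY1
          omega
        let π : (Fin d → ℝ) → (Fin d → ℝ) := fun x => Function.update x i m
        set Y3 := Y.image π with hY3
        have hc3 : Y3.card ≤ Y.card := Finset.card_image_le
        obtain ⟨S1, hS1, hr1⟩ := ihL A hA Y1 hc1.le fun x hx y hy => hY x (hY1 hx) y (hY1 hy)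
        obtain ⟨S2, hS2, hr2⟩ := ihL A hA Y2 hc2 fun x hx y hy =>
          hY x (Finset.sdiff_subset hx) y (Finset.sdiff_subset hy)
        obtain ⟨S3, hS3, hr3⟩ := ihk (L + 1) (A.erase i)
          (by rw [Finset.card_erase_of_mem hi, hA]; rfl) Y3 (hc3.trans hcard) (by
            intro x hx y hy j hj
            obtain ⟨x', hx', rfl⟩ := Finset.mem_image.1 hx
            obtain ⟨y', hy', rfl⟩ := Finset.mem_image.1 hy
            by_cases hji : j = i
            · subst hji; simp [π]
            · have hjA : j ∉ A := fun h => hj (Finset.mem_erase.2 ⟨hji, h⟩)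
              simp only [π, Function.update_of_ne hji]
              exact hY x' hx' y' hy' j hjA)
        let S4 : Finset ((Fin d → ℝ) × (Fin d → ℝ)) := Y.image fun x => (x, π x)
        let S := S1 ∪ S2 ∪ S3 ∪ S4
        have hs1 : (S1 : Set ((Fin d → ℝ) × (Fin d → ℝ))) ⊆ (S : Set _) := by
          intro p hp; simp only [S, Finset.coe_union]; exact Or.inl (Or.inl (Or.inl hp))
        have hs2 : (S2 : Set ((Fin d → ℝ) × (Fin d → ℝ))) ⊆ (S : Set _) := by
          intro p hp; simp only [S, Finset.coe_union]; exact Or.inl (Or.inl (Or.inr hp))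
        have hs3 : (S3 : Set ((Fin d → ℝ) × (Fin d → ℝ))) ⊆ (S : Set _) := by
          intro p hp; simp only [S, Finset.coe_union]; exact Or.inl (Or.inr hp)
        have hs4 : ∀ x ∈ Y, (x, π x) ∈ (S : Set _) := by
          intro x hx; simp only [S, Finset.coe_union]
          exact Or.inr (Finset.mem_coe.2 (Finset.mem_image.2 ⟨x, hx, rfl⟩))
        have hS4 : S4.card ≤ Y.card := Finset.card_image_le
        have hScard : S.card ≤ S1.card + S2.card + S3.card + S4.card := by
          refine (Finset.card_union_le _ _).trans (Nat.add_le_add_right ?_ _)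
          refine (Finset.card_union_le _ _).trans (Nat.add_le_add_right ?_ _)
          exact Finset.card_union_le _ _
        refine ⟨S, ?_, ?_⟩
        · have hpascal : (L + 1 + (k + 1)).choose (k + 1) =
              (L + (k + 1)).choose (k + 1) + (L + 1 + k).choose k := by
            have : L + 1 + (k + 1) = (L + k + 1) + 1 := by ring
            rw [this, Nat.choose_succ_succ, add_comm]
            congr 2
            ring_nf
          rw [hpascal]
          set c := (L + (k + 1)).choose (k + 1)
          set c3 := (L + 1 + k).choose k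
          have hc3pos : 1 ≤ c3 := Nat.choose_pos (by omega)
          have e1 : Y.card * (2 * (c + c3)) = Y1.card * (2 * c) + Y2.card * (2 * c) +
              Y.card * (2 * c3) := by rw [← hcsum]; ring
          rw [e1]
          have e2 : S3.card + Y.card ≤ Y.card * (2 * c3) := by
            obtain ⟨q, hq⟩ : ∃ q, 2 * c3 = q + 1 := ⟨2 * c3 - 1, by omega⟩
            rw [hq] at hS3 ⊢
            have : S3.card ≤ Y3.card * q := by
              rw [Nat.mul_add] at hS3; omega
            have : S3.card ≤ Y.card * q := this.trans (Nat.mul_le_mul_right _ hc3)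
            rw [Nat.mul_add]; omega
          omega
        · have hcross : ∀ x ∈ Y1, ∀ y ∈ Y2, Reach dOne (S : Set _) x y (dOne x y) := by
            intro x hx y hy
            have hxY : x ∈ Y := hY1 hx
            rw [hY2, Finset.mem_sdiff] at hy
            have e1 : x i ≤ m := hamax x hx
            have e2 : m ≤ y i := hlow a ha y hy.1 hy.2
            have r1 : Reach dOne (S : Set _) x (π x) (dOne x (π x)) :=
              Reach.edge (Or.inl (hs4 x hxY))
            have r2 : Reach dOne (S : Set _) (π x) (π y) (dOne (π x) (π y)) :=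
              (hr3 _ (Finset.mem_image_of_mem _ hxY) _ (Finset.mem_image_of_mem _ hy.1)).mono_set hs3
            have r3 : Reach dOne (S : Set _) (π y) y (dOne (π y) y) :=
              Reach.edge (Or.inr (hs4 y hy.1))
            refine ((r1.trans r2).trans r3).mono ?_
            rw [dOne_symm (π y) y]
            simp only [π]
            rw [dOne_update, dOne_update, ← dOne_update_update x y i m]
            rw [abs_of_nonpos (by linarith : x i - m ≤ 0),
              abs_of_nonneg (by linarith : 0 ≤ y i - m),
              abs_of_nonpos (by linarith : x i - y i ≤ 0)]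
            linarith
          intro x hx y hy
          by_cases hx1 : x ∈ Y1 <;> by_cases hy1 : y ∈ Y1
          · exact (hr1 x hx1 y hy1).mono_set hs1
          · exact hcross x hx1 y (Finset.mem_sdiff.2 ⟨hy, hy1⟩)
          · have := (hcross y hy1 x (Finset.mem_sdiff.2 ⟨hx, hx1⟩)).symm dOne_symm
            rwa [dOne_symm] at this
          · exact (hr2 x (Finset.mem_sdiff.2 ⟨hx, hx1⟩) y (Finset.mem_sdiff.2 ⟨hy, hy1⟩)).mono_set hs2

/-- Exact networks in `ℓ_1^(k+1)`. -/
theorem exact_net_one (k L : ℕ) (Y : Finset (Fin (k + 1) → ℝ)) (hY : Y.card ≤ 2 ^ L) :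
    ∃ S : Finset ((Fin (k + 1) → ℝ) × (Fin (k + 1) → ℝ)),
      S.card ≤ Y.card * (2 * (L + k).choose k) ∧
      ∀ x ∈ Y, ∀ y ∈ Y, Reach dOne (S : Set _) x y (dOne x y) := by
  obtain ⟨S, hS, hr⟩ := exact_net_aux (k + 1) k L Finset.univ (by simp) Y hY (by simp)
  exact ⟨S, by omega, hr⟩

end Pool.Agent.Helper39.Net
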