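import Pool.Agent.Helper39.Net.L1

/-!
# Exact networks in `ℓ_∞^d`
-/

namespace Pool.Agent.Helper39.Net

open Set

/-- The `ℓ_∞` distance on `ℝ^d` (the norm of a function on `Fin d` is the supremum norm). -/
noncomputable def dInf {d : ℕ} (x y : Fin d → ℝ) : ℝ := ‖x - y‖

variable {d : ℕ}

theorem dInf_symm (x y : Fin d → ℝ) : dInf x y = dInf y x := norm_sub_rev x y

theorem dInf_self (x : Fin d → ℝ) : dInf x x = 0 := by simp [dInf]

theorem dInf_nonneg (x y : Fin d → ℝ) : 0 ≤ dInf x y := norm_nonneg _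

theorem dInf_tri (x y z : Fin d → ℝ) : dInf x z ≤ dInf x y + dInf y z := by
  unfold dInf
  have : x - z = (x - y) + (y - z) := by abel
  rw [this]
  exact norm_add_le _ _

theorem dInf_pos (x y : Fin d → ℝ) (h : x ≠ y) : 0 < dInf x y :=
  norm_pos_iff.2 (sub_ne_zero.2 h)

/-- Signs. -/
def sg (b : Bool) : ℝ := if b then 1 else -1

theorem sg_mul_self (b : Bool) : sg b * sg b = 1 := by cases b <;> simp [sg]

theorem abs_sg (b : Bool) : |sg b| = 1 := by cases b <;> simp [sg]

/-- The signed sorted coordinates, extended by zero. -/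
def srt (σ : Equiv.Perm (Fin d)) (s : Fin d → Bool) (x : Fin d → ℝ) (l : ℕ) : ℝ :=
  if h : l < d then sg (s (σ ⟨l, h⟩)) * x (σ ⟨l, h⟩) else 0

/-- The cone coordinates. -/
def tr (σ : Equiv.Perm (Fin d)) (s : Fin d → Bool) (x : Fin d → ℝ) : Fin d → ℝ :=
  fun j => srt σ s x j - srt σ s x (j + 1)

/-- The inverse map. -/
def trInv (σ : Equiv.Perm (Fin d)) (s : Fin d → Bool) (u : Fin d → ℝ) : Fin d → ℝ :=
  fun i => sg (s i) * ∑ l : Fin d, if (σ.symm i : ℕ) ≤ (l : ℕ) then u l else 0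

theorem trInv_tr (σ : Equiv.Perm (Fin d)) (s : Fin d → Bool) (x : Fin d → ℝ) :
    trInv σ s (tr σ s x) = x := by
  funext i
  unfold trInv tr
  have h1 : (∑ l : Fin d, if (σ.symm i : ℕ) ≤ (l : ℕ) then srt σ s x l - srt σ s x (l + 1) else 0)
      = srt σ s x (σ.symm i) := by
    rw [Fin.sum_univ_eq_sum_range (fun l : ℕ => if (σ.symm i : ℕ) ≤ l then
      srt σ s x l - srt σ s x (l + 1) else 0) d, ← Finset.sum_filter]
    have h2 : (Finset.range d).filter (fun l => (σ.symm i : ℕ) ≤ l) =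
        Finset.Ico (σ.symm i : ℕ) d := by
      ext l; simp only [Finset.mem_filter, Finset.mem_range, Finset.mem_Ico]; tauto
    rw [h2]
    have h3 : ∀ n, (σ.symm i : ℕ) ≤ n → ∑ l ∈ Finset.Ico (σ.symm i : ℕ) n,
        (srt σ s x l - srt σ s x (l + 1)) = srt σ s x (σ.symm i) - srt σ s x n := by
      intro n hn
      induction n, hn using Nat.le_induction with
      | base => simp
      | succ n hn ih => rw [Finset.sum_Ico_succ_top hn, ih]; ring
    rw [h3 d (σ.symm i).2.le]
    have : srt σ s x d = 0 := by simp [srt]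
    rw [this, sub_zero]
  rw [h1]
  unfold srt
  rw [dif_pos (σ.symm i).2]
  simp only [Fin.eta, Equiv.apply_symm_apply]
  rw [← mul_assoc, sg_mul_self, one_mul]

theorem dInf_trInv (σ : Equiv.Perm (Fin d)) (s : Fin d → Bool) (u v : Fin d → ℝ) :
    dInf (trInv σ s u) (trInv σ s v) ≤ dOne u v := by
  unfold dInf
  rw [pi_norm_le_iff_of_nonneg (dOne_nonneg u v)]
  intro i
  rw [Pi.sub_apply, Real.norm_eq_abs]
  unfold trInv dOne
  rw [← mul_sub, abs_mul, abs_sg, one_mul, ← Finset.sum_sub_distrib]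
  refine (Finset.abs_sum_le_sum_abs _ _).trans (Finset.sum_le_sum fun l _ => ?_)
  split_ifs
  · exact le_rfl
  · simp

theorem exists_cone (x y : Fin d → ℝ) :
    ∃ (σ : Equiv.Perm (Fin d)) (s : Fin d → Bool), dOne (tr σ s x) (tr σ s y) ≤ dInf x y := by
  let f : Fin d → ℝ := fun i => -|x i - y i|
  let σ := Tuple.sort f
  have hσ : Monotone (f ∘ σ) := Tuple.monotone_sort f
  let s : Fin d → Bool := fun i => decide (0 ≤ x i - y i)
  refine ⟨σ, s, ?_⟩
  have hs : ∀ i, sg (s i) * (x i - y i) = |x i - y i| := by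
    intro i
    by_cases h : 0 ≤ x i - y i
    · have hs1 : s i = true := decide_eq_true h
      rw [hs1, abs_of_nonneg h]
      simp [sg]
    · have h' : x i - y i < 0 := lt_of_not_ge h
      have hs1 : s i = false := decide_eq_false h
      rw [hs1, abs_of_neg h']
      simp [sg]
  let a : ℕ → ℝ := fun l => srt σ s x l - srt σ s y l
  have ha : ∀ l (h : l < d), a l = |x (σ ⟨l, h⟩) - y (σ ⟨l, h⟩)| := by
    intro l h
    simp only [a, srt, dif_pos h]
    rw [← mul_sub, hs]
  have had : a d = 0 := by simp [a, srt]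
  have hanti : ∀ l < d, a (l + 1) ≤ a l := by
    intro l hl
    rw [ha l hl]
    by_cases h : l + 1 < d
    · rw [ha _ h]
      have := hσ (show (⟨l, hl⟩ : Fin d) ≤ ⟨l + 1, h⟩ from Nat.le_succ l)
      simp only [f, Function.comp] at this
      linarith
    · have : l + 1 = d := by omega
      rw [this, had]
      exact abs_nonneg _
  have h1 : dOne (tr σ s x) (tr σ s y) = ∑ l ∈ Finset.range d, (a l - a (l + 1)) := by
    unfold dOne tr
    rw [← Fin.sum_univ_eq_sum_range (fun l => a l - a (l + 1)) d]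
    refine Finset.sum_congr rfl fun l _ => ?_
    have := hanti l l.2
    rw [← abs_of_nonneg (sub_nonneg.2 this)]
    congr 1
    simp only [a]
    ring
  rw [h1, Finset.sum_range_sub', had, sub_zero]
  rcases Nat.eq_zero_or_pos d with h0 | h0
  · subst h0
    rw [had]
    exact dInf_nonneg _ _
  · rw [ha 0 h0]
    exact norm_le_pi_norm (x - y) _

/-- Exact networks in `ℓ_∞^(k+1)`. -/
theorem exact_net_inf (k L : ℕ) (Y : Finset (Fin (k + 1) → ℝ)) (hY : Y.card ≤ 2 ^ L) :
    ∃ S : Finset ((Fin (k + 1) → ℝ) × (Fin (k + 1) → ℝ)),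
      S.card ≤ Y.card * ((k + 1).factorial * 2 ^ (k + 1) * (2 * (L + k).choose k)) ∧
      ∀ x ∈ Y, ∀ y ∈ Y, Reach dInf (S : Set _) x y (dInf x y) := by
  classical
  have h : ∀ q : Equiv.Perm (Fin (k + 1)) × (Fin (k + 1) → Bool),
      ∃ S : Finset ((Fin (k + 1) → ℝ) × (Fin (k + 1) → ℝ)),
      S.card ≤ Y.card * (2 * (L + k).choose k) ∧
      ∀ x ∈ Y, ∀ y ∈ Y, Reach dInf (S : Set _) x y (dOne (tr q.1 q.2 x) (tr q.1 q.2 y)) := by
    intro q
    obtain ⟨S, hS, hr⟩ := exact_net_one k L (Y.image (tr q.1 q.2)) (Finset.card_image_le.trans hY)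
    refine ⟨S.image fun p => (trInv q.1 q.2 p.1, trInv q.1 q.2 p.2), ?_, ?_⟩
    · exact Finset.card_image_le.trans (hS.trans (Nat.mul_le_mul_right _ Finset.card_image_le))
    · intro x hx y hy
      have := (hr _ (Finset.mem_image_of_mem _ hx) _ (Finset.mem_image_of_mem _ hy)).map
        (ρ' := dInf) (S' := ((S.image fun p => (trInv q.1 q.2 p.1, trInv q.1 q.2 p.2) :
          Finset _) : Set _)) (trInv q.1 q.2) (dInf_trInv q.1 q.2)
        (fun p hp => Finset.mem_coe.2 (Finset.mem_image_of_mem _ hp))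
      rwa [trInv_tr, trInv_tr] at this
  choose S hS hr using h
  refine ⟨Finset.univ.biUnion S, ?_, ?_⟩
  · refine Finset.card_biUnion_le.trans ((Finset.sum_le_sum fun q _ => hS q).trans ?_)
    rw [Finset.sum_const, Finset.card_univ, Fintype.card_prod, Fintype.card_perm, Fintype.card_fun,
      Fintype.card_fin, Fintype.card_bool, smul_eq_mul]
    apply le_of_eq
    ring
  · intro x hx y hy
    obtain ⟨σ, s, hσ⟩ := exists_cone x y
    refine ((hr (σ, s) x hx y hy).mono hσ).mono_set fun p hp => ?_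
    exact Finset.mem_coe.2 (Finset.mem_biUnion.2 ⟨(σ, s), Finset.mem_univ _, hp⟩)

end Pool.Agent.Helper39.Net
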