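import Pool.Agent.Helper39.Net.Linf

/-!
# Packing bounds
-/

namespace Pool.Agent.Helper39.Net

open Set Metric Module MeasureTheory MeasureTheory.Measure
open scoped ENNReal

/-- Volume bound for separated sets in a ball. -/
theorem card_le_of_sep {F : Type*} [NormedAddCommGroup F] [NormedSpace ℝ F]
    [FiniteDimensional ℝ F] (s : Finset F) (z : F) (R r : ℝ) (hr : 0 < r) (hR : 0 ≤ R)
    (hs : ∀ c ∈ s, ‖c - z‖ ≤ R) (h : ∀ c ∈ s, ∀ c' ∈ s, c ≠ c' → r ≤ ‖c - c'‖) :
    (s.card : ℝ) ≤ (2 * R / r + 1) ^ finrank ℝ F := by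
  borelize F
  let μ : Measure F := Measure.addHaar
  have hδ : 0 < r / 2 := by linarith
  have hρ : 0 < R + r / 2 := by linarith
  set A := ⋃ c ∈ s, ball (c : F) (r / 2) with hA
  have D : Set.Pairwise (s : Set F) (Function.onFun Disjoint fun c => ball (c : F) (r / 2)) := by
    rintro c hc d hd hcd
    apply ball_disjoint_ball
    rw [dist_eq_norm]
    have := h c hc d hd hcd
    linarith
  have A_subset : A ⊆ ball z (R + r / 2) := by
    refine iUnion₂_subset fun x hx => ?_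
    apply ball_subset_ball'
    rw [dist_eq_norm]
    linarith [hs x hx]
  have I : (s.card : ℝ≥0∞) * ENNReal.ofReal ((r / 2) ^ finrank ℝ F) * μ (ball 0 1) ≤
      ENNReal.ofReal ((R + r / 2) ^ finrank ℝ F) * μ (ball 0 1) :=
    calc
      (s.card : ℝ≥0∞) * ENNReal.ofReal ((r / 2) ^ finrank ℝ F) * μ (ball 0 1) = μ A := by
        rw [hA, measure_biUnion_finset D fun c _ => measurableSet_ball]
        simp only [μ.addHaar_ball_of_pos _ hδ]
        simp only [Finset.sum_const, nsmul_eq_mul, mul_assoc]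
      _ ≤ μ (ball z (R + r / 2)) := measure_mono A_subset
      _ = ENNReal.ofReal ((R + r / 2) ^ finrank ℝ F) * μ (ball 0 1) := by
        simp only [μ.addHaar_ball_of_pos _ hρ]
  have J : (s.card : ℝ≥0∞) * ENNReal.ofReal ((r / 2) ^ finrank ℝ F) ≤
      ENNReal.ofReal ((R + r / 2) ^ finrank ℝ F) :=
    (ENNReal.mul_le_mul_iff_left (measure_ball_pos _ _ zero_lt_one).ne' measure_ball_lt_top.ne).1 I
  have K := ENNReal.toReal_le_of_le_ofReal (pow_nonneg hρ.le _) J
  rw [ENNReal.toReal_mul, ENNReal.toReal_natCast, ENNReal.toReal_ofReal (pow_nonneg hδ.le _)] at K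
  have e : (R + r / 2) = (2 * R / r + 1) * (r / 2) := by
    field_simp
  rw [e, mul_pow] at K
  exact le_of_mul_le_mul_right K (pow_pos hδ _)

variable {d : ℕ}

theorem dInf_packing (s : Finset (Fin d → ℝ)) (z : Fin d → ℝ) (R r : ℝ) (hr : 0 < r)
    (hR : 0 ≤ R) (hs : ∀ x ∈ s, dInf x z ≤ R) (h : ∀ x ∈ s, ∀ y ∈ s, x ≠ y → r ≤ dInf x y) :
    (s.card : ℝ) ≤ (2 * R / r + 1) ^ d := by
  have := card_le_of_sep s z R r hr hR hs h
  rwa [Module.finrank_fin_fun] at this

theorem norm_toLp_one (x : Fin d → ℝ) : ‖WithLp.toLp 1 x‖ = ∑ i, |x i| := by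
  rw [PiLp.norm_eq_of_L1]
  rfl

theorem dOne_packing (s : Finset (Fin d → ℝ)) (z : Fin d → ℝ) (R r : ℝ) (hr : 0 < r)
    (hR : 0 ≤ R) (hs : ∀ x ∈ s, dOne x z ≤ R) (h : ∀ x ∈ s, ∀ y ∈ s, x ≠ y → r ≤ dOne x y) :
    (s.card : ℝ) ≤ (2 * R / r + 1) ^ d := by
  classical
  let f : (Fin d → ℝ) → PiLp 1 (fun _ : Fin d => ℝ) := WithLp.toLp 1
  have hf : Function.Injective f := WithLp.toLp_injective 1
  have hnorm : ∀ x y, ‖f x - f y‖ = dOne x y := by
    intro x y
    have : f x - f y = WithLp.toLp 1 (x - y) := rfl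
    rw [this, norm_toLp_one]
    rfl
  have key := card_le_of_sep (s.image f) (f z) R r hr hR (by
    intro c hc
    obtain ⟨x, hx, rfl⟩ := Finset.mem_image.1 hc
    rw [hnorm]; exact hs x hx) (by
    intro c hc c' hc' hne
    obtain ⟨x, hx, rfl⟩ := Finset.mem_image.1 hc
    obtain ⟨y, hy, rfl⟩ := Finset.mem_image.1 hc'
    rw [hnorm]
    exact h x hx y hy fun hxy => hne (by rw [hxy]))
  rw [Finset.card_image_of_injective _ hf] at key
  have hfr : finrank ℝ (PiLp 1 (fun _ : Fin d => ℝ)) = d := by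
    rw [(WithLp.linearEquiv 1 ℝ (Fin d → ℝ)).finrank_eq, Module.finrank_fin_fun]
  rwa [hfr] at key

end Pool.Agent.Helper39.Net
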