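import Pool.Agent.Helper39.Net.Final

/-!
# Bounds for `EN` and `CN` of `dOne` and `dInf`
-/

namespace Pool.Agent.Helper39.Net

open Set

theorem enough_one (k n : ℕ) (hn : 1 ≤ n) (c : ℝ) (hc : 1 ≤ c) :
    n * (2 * (Nat.clog 2 n + k).choose k) ∈ Enough (dOne (d := k + 1)) n c := by
  intro M hM
  have hne : M.Nonempty := Finset.card_pos.1 (by omega)
  have := upper_one_exact k M hne
  rw [hM] at this
  exact this.mono_c hc dOne_nonneg

theorem enough_inf (k n : ℕ) (hn : 1 ≤ n) (c : ℝ) (hc : 1 ≤ c) :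
    n * ((k + 1).factorial * 2 ^ (k + 1) * (2 * (Nat.clog 2 n + k).choose k)) ∈
      Enough (dInf (d := k + 1)) n c := by
  intro M hM
  have hne : M.Nonempty := Finset.card_pos.1 (by omega)
  have := upper_inf_exact k M hne
  rw [hM] at this
  exact this.mono_c hc dInf_nonneg

theorem ratio_one (k : ℕ) (c : ℝ) (hc : 1 < c) : ∀ r ∈ Ratios (dOne (d := k + 1)) c,
    r ≤ (10000 : ℝ) ^ (k + 1) * G c ^ k := by
  rintro r ⟨n, hn, rfl⟩
  have h1 : n * (1 + 6 * 9 ^ (k + 1) * (2 * ((k + 1) * ell c + k).choose k)) ∈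
      Enough (dOne (d := k + 1)) n c := by
    intro M hM
    have hne : M.Nonempty := Finset.card_pos.1 (by omega)
    have := upper_one k c hc M hne
    rwa [hM] at this
  have h2 : (EN (dOne (d := k + 1)) n c : ℝ) ≤
      n * (1 + 6 * 9 ^ (k + 1) * (2 * (((k + 1) * ell c + k).choose k : ℝ))) := by
    exact_mod_cast EN_le h1
  have hn0 : (0 : ℝ) < n := by exact_mod_cast (by omega : 0 < n)
  rw [div_le_iff₀ hn0]
  have h3 := final_bound k (ell c) (G c) (one_le_G hc) (ell_le hc) 1 le_rfl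
  have h4 : (13 * 27 * 12 * 1 : ℝ) ^ (k + 1) * G c ^ k ≤ 10000 ^ (k + 1) * G c ^ k := by
    have := one_le_G hc
    gcongr
    norm_num
  rw [mul_one] at h3
  have h5 : (1 + 6 * 9 ^ (k + 1) * (2 * (((k + 1) * ell c + k).choose k : ℝ))) ≤
      10000 ^ (k + 1) * G c ^ k := by linarith
  calc _ ≤ _ := h2
    _ = (1 + 6 * 9 ^ (k + 1) * (2 * (((k + 1) * ell c + k).choose k : ℝ))) * n := by ring
    _ ≤ _ := mul_le_mul_of_nonneg_right h5 hn0.le

theorem ratio_inf (k : ℕ) (c : ℝ) (hc : 1 < c) : ∀ r ∈ Ratios (dInf (d := k + 1)) c,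
    r ≤ (10000 : ℝ) ^ (k + 1) * (k + 1).factorial * G c ^ k := by
  rintro r ⟨n, hn, rfl⟩
  have h1 : n * (1 + 6 * 9 ^ (k + 1) *
      ((k + 1).factorial * 2 ^ (k + 1) * (2 * ((k + 1) * ell c + k).choose k))) ∈
      Enough (dInf (d := k + 1)) n c := by
    intro M hM
    have hne : M.Nonempty := Finset.card_pos.1 (by omega)
    have := upper_inf k c hc M hne
    rwa [hM] at this
  have h2 : (EN (dInf (d := k + 1)) n c : ℝ) ≤
      n * (1 + 6 * 9 ^ (k + 1) * ((k + 1).factorial * 2 ^ (k + 1) *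
        (2 * (((k + 1) * ell c + k).choose k : ℝ)))) := by
    exact_mod_cast EN_le h1
  have hn0 : (0 : ℝ) < n := by exact_mod_cast (by omega : 0 < n)
  rw [div_le_iff₀ hn0]
  have h3 := final_bound k (ell c) (G c) (one_le_G hc) (ell_le hc) 2 (by norm_num)
  have h4 : (13 * 27 * 12 * 2 : ℝ) ^ (k + 1) * G c ^ k ≤ 10000 ^ (k + 1) * G c ^ k := by
    have := one_le_G hc
    gcongr
    norm_num
  have hf : (1 : ℝ) ≤ (k + 1).factorial := by exact_mod_cast (k + 1).factorial_pos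
  have h5 : (1 + 6 * 9 ^ (k + 1) * ((k + 1).factorial * 2 ^ (k + 1) *
        (2 * (((k + 1) * ell c + k).choose k : ℝ)))) ≤
      10000 ^ (k + 1) * (k + 1).factorial * G c ^ k := by
    have e : (6 : ℝ) * 9 ^ (k + 1) * ((k + 1).factorial * 2 ^ (k + 1) *
        (2 * (((k + 1) * ell c + k).choose k : ℝ))) =
        (k + 1).factorial * (12 * (9 * 2) ^ (k + 1) * (((k + 1) * ell c + k).choose k : ℝ)) := by
      rw [mul_pow (9 : ℝ) 2]
      ring
    rw [e]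
    have h6 : (12 * (9 * 2) ^ (k + 1) * (((k + 1) * ell c + k).choose k : ℝ)) ≤
        10000 ^ (k + 1) * G c ^ k - 1 := by linarith
    have h7 := mul_le_mul_of_nonneg_left h6 (by linarith : (0 : ℝ) ≤ (k + 1).factorial)
    have e2 : (10000 : ℝ) ^ (k + 1) * (k + 1).factorial * G c ^ k =
        (k + 1).factorial * (10000 ^ (k + 1) * G c ^ k) := by ring
    rw [e2]
    linarith
  calc _ ≤ _ := h2
    _ = (1 + 6 * 9 ^ (k + 1) * ((k + 1).factorial * 2 ^ (k + 1) *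
        (2 * (((k + 1) * ell c + k).choose k : ℝ)))) * n := by ring
    _ ≤ _ := mul_le_mul_of_nonneg_right h5 hn0.le

theorem choose_real (k n : ℕ) (hn : 2 ≤ n) :
    ((Nat.clog 2 n + k).choose k : ℝ) ≤ 5 ^ k * Real.log n ^ k := by
  have h1 : ((Nat.clog 2 n + k).choose k : ℝ) ≤ ((Nat.clog 2 n : ℝ) + 1) ^ k := by
    exact_mod_cast choose_add_le _ _
  refine h1.trans ?_
  rw [← mul_pow]
  exact pow_le_pow_left₀ (by positivity) (clog_le n hn) _

theorem exact_one (k n : ℕ) (hn : 2 ≤ n) :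
    (EN (dOne (d := k + 1)) n 1 : ℝ) ≤ 10000 ^ (k + 1) * n * Real.log n ^ k := by
  have h1 : (EN (dOne (d := k + 1)) n 1 : ℝ) ≤
      n * (2 * ((Nat.clog 2 n + k).choose k : ℝ)) := by
    exact_mod_cast EN_le (enough_one k n (by omega) 1 le_rfl)
  have h2 := choose_real k n hn
  have hl : 0 ≤ Real.log n := Real.log_nonneg (by exact_mod_cast (by omega : 1 ≤ n))
  have hn0 : (0 : ℝ) < n := by exact_mod_cast (by omega : 0 < n)
  have h3 : (2 : ℝ) * 5 ^ k ≤ 10000 ^ (k + 1) := by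
    have : (5 : ℝ) ^ k ≤ 10000 ^ k := pow_le_pow_left₀ (by norm_num) (by norm_num) _
    have h0 : (0 : ℝ) ≤ 10000 ^ k := by positivity
    rw [pow_succ]
    linarith
  calc _ ≤ _ := h1
    _ ≤ n * (2 * (5 ^ k * Real.log n ^ k)) := by gcongr
    _ = (2 * 5 ^ k) * n * Real.log n ^ k := by ring
    _ ≤ _ := by gcongr

theorem exact_inf (k n : ℕ) (hn : 2 ≤ n) :
    (EN (dInf (d := k + 1)) n 1 : ℝ) ≤
      10000 ^ (k + 1) * (k + 1).factorial * n * Real.log n ^ k := by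
  have h1 : (EN (dInf (d := k + 1)) n 1 : ℝ) ≤
      n * ((k + 1).factorial * 2 ^ (k + 1) * (2 * ((Nat.clog 2 n + k).choose k : ℝ))) := by
    exact_mod_cast EN_le (enough_inf k n (by omega) 1 le_rfl)
  have h2 := choose_real k n hn
  have hl : 0 ≤ Real.log n := Real.log_nonneg (by exact_mod_cast (by omega : 1 ≤ n))
  have hn0 : (0 : ℝ) < n := by exact_mod_cast (by omega : 0 < n)
  have h3 : (2 : ℝ) ^ (k + 1) * 2 * 5 ^ k ≤ 10000 ^ (k + 1) := by
    have h5 : (10 : ℝ) ^ k ≤ 10000 ^ k := pow_le_pow_left₀ (by norm_num) (by norm_num) _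
    have h0 : (0 : ℝ) ≤ 10000 ^ k := by positivity
    have e : (2 : ℝ) ^ (k + 1) * 2 * 5 ^ k = 4 * 10 ^ k := by
      rw [show (10 : ℝ) = 2 * 5 by norm_num, mul_pow]; ring
    rw [e, pow_succ]
    linarith
  calc _ ≤ _ := h1
    _ ≤ n * ((k + 1).factorial * 2 ^ (k + 1) * (2 * (5 ^ k * Real.log n ^ k))) := by gcongr
    _ = (2 ^ (k + 1) * 2 * 5 ^ k) * (k + 1).factorial * n * Real.log n ^ k := by ring
    _ ≤ _ := by gcongr

theorem two_one (k : ℕ) (c : ℝ) (hc : 1 ≤ c) : 1 ≤ EN (dOne (d := k + 1)) 2 c := by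
  have h : (fun _ : Fin (k + 1) => (0 : ℝ)) ≠ fun _ => 1 := fun h => by
    have := congrFun h 0; norm_num at this
  exact one_le_EN_two ⟨_, enough_one k 2 (by norm_num) c hc⟩ h (dOne_pos _ _ h)

theorem two_inf (k : ℕ) (c : ℝ) (hc : 1 ≤ c) : 1 ≤ EN (dInf (d := k + 1)) 2 c := by
  have h : (fun _ : Fin (k + 1) => (0 : ℝ)) ≠ fun _ => 1 := fun h => by
    have := congrFun h 0; norm_num at this
  exact one_le_EN_two ⟨_, enough_inf k 2 (by norm_num) c hc⟩ h (dInf_pos _ _ h)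

theorem bdd_one (k : ℕ) (c : ℝ) (hc : 1 < c) : BddAbove (Ratios (dOne (d := k + 1)) c) :=
  ⟨_, fun r hr => ratio_one k c hc r hr⟩

theorem bdd_inf (k : ℕ) (c : ℝ) (hc : 1 < c) : BddAbove (Ratios (dInf (d := k + 1)) c) :=
  ⟨_, fun r hr => ratio_inf k c hc r hr⟩

theorem half_le {E : Type} {ρ : E → E → ℝ} {c : ℝ} (hb : BddAbove (Ratios ρ c))
    (h2 : 1 ≤ EN ρ 2 c) : (1 : ℝ) ≤ 10000 * CN ρ c := by
  have h5 : (1 : ℝ) / 2 ≤ CN ρ c := by
    refine le_trans ?_ (le_csSup hb ⟨2, le_rfl, rfl⟩)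
    have : (1 : ℝ) ≤ EN ρ 2 c := by exact_mod_cast h2
    push_cast
    linarith
  linarith

theorem hlow_one (k : ℕ) : (∀ c : ℝ, 1 < c → G c ≤ 16 * CN (dOne (d := k + 2)) c) ∧
    ∀ n : ℕ, 2 ≤ n → (n : ℝ) * Real.log n ≤ 16 * EN (dOne (d := k + 2)) n 1 :=
  lower_final (fun K => ⟨ptOne K k, dOne_ptOne K k⟩)
    (fun n hn c hc => ⟨_, enough_one (k + 1) n hn c hc⟩) (bdd_one (k + 1)) (two_one (k + 1))

theorem hlow_inf (k : ℕ) : (∀ c : ℝ, 1 < c → G c ≤ 16 * CN (dInf (d := k + 2)) c) ∧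
    ∀ n : ℕ, 2 ≤ n → (n : ℝ) * Real.log n ≤ 16 * EN (dInf (d := k + 2)) n 1 :=
  lower_final (fun K => ⟨ptInf K k, dInf_ptInf K k⟩)
    (fun n hn c hc => ⟨_, enough_inf (k + 1) n hn c hc⟩) (bdd_inf (k + 1)) (two_inf (k + 1))

end Pool.Agent.Helper39.Net
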