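import Mathlib

/-!
# Weighted graphs, embeddings and geometric networks
-/

namespace Pool.Agent.Helper39.Net

open Set

/-- Total weight of a walk. -/
def walkLen {V : Type} {G : SimpleGraph V} (w : Sym2 V → ℝ) {u v : V} (p : G.Walk u v) : ℝ :=
  (p.edges.map w).sum

/-- The shortest-path distance of the weighted graph `(G, w)`. -/
noncomputable def gdist {V : Type} (G : SimpleGraph V) (w : Sym2 V → ℝ) (u v : V) : ℝ :=
  ⨅ p : G.Walk u v, walkLen w p

/-- The finite set `M` with the metric `ρ` embeds with distortion `c` into some finite connected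
weighted graph with at most `m` edges. -/
def Embeds {E : Type} (ρ : E → E → ℝ) (M : Finset E) (c : ℝ) (m : ℕ) : Prop :=
  ∃ (V : Type) (_ : Finite V) (G : SimpleGraph V) (w : Sym2 V → ℝ), G.Connected ∧
    (∀ e ∈ G.edgeSet, 0 < w e) ∧ G.edgeSet.ncard ≤ m ∧ ∃ (f : E → V) (s : ℝ), 0 < s ∧
      ∀ x ∈ M, ∀ y ∈ M, s * ρ x y ≤ gdist G w (f x) (f y) ∧
        gdist G w (f x) (f y) ≤ c * (s * ρ x y)

/-- Chains in the set `S` of pairs, from `x` to `y`, of total length at most `t`. -/
inductive Reach {E : Type} (ρ : E → E → ℝ) (S : Set (E × E)) (x : E) : E → ℝ → Prop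
  | refl {t : ℝ} (ht : 0 ≤ t) : Reach ρ S x x t
  | step {y z : E} {s t : ℝ} (h : Reach ρ S x y s) (hS : (y, z) ∈ S ∨ (z, y) ∈ S)
      (ht : s + ρ y z ≤ t) : Reach ρ S x z t

variable {E : Type} {ρ : E → E → ℝ} {S S' : Set (E × E)}

theorem Reach.mono {x y : E} {s t : ℝ} (h : Reach ρ S x y s) (hst : s ≤ t) :
    Reach ρ S x y t := by
  cases h with
  | refl h0 => exact Reach.refl (h0.trans hst)
  | step h hS ht => exact Reach.step h hS (ht.trans hst)

theorem Reach.mono_set {x y : E} {t : ℝ} (h : Reach ρ S x y t) (hS : S ⊆ S') :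
    Reach ρ S' x y t := by
  induction h with
  | refl h0 => exact Reach.refl h0
  | step h hs ht ih => exact Reach.step ih (hs.imp (fun h => hS h) (fun h => hS h)) ht

theorem Reach.trans {x y z : E} {s t : ℝ} (h : Reach ρ S x y s) (h' : Reach ρ S y z t) :
    Reach ρ S x z (s + t) := by
  induction h' with
  | refl h0 => exact h.mono (by linarith)
  | step h' hs ht ih => exact Reach.step ih hs (by linarith)

theorem Reach.edge {x y : E} (hS : (x, y) ∈ S ∨ (y, x) ∈ S) : Reach ρ S x y (ρ x y) :=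
  Reach.step (Reach.refl le_rfl) hS (by linarith)

theorem Reach.symm (hρ : ∀ x y, ρ x y = ρ y x) {x y : E} {t : ℝ} (h : Reach ρ S x y t) :
    Reach ρ S y x t := by
  induction h with
  | refl h0 => exact Reach.refl h0
  | @step y z s t h hs ht ih =>
    have h1 : Reach ρ S z y (ρ z y) := Reach.edge hs.symm
    exact (h1.trans ih).mono (by rw [hρ z y]; linarith)

/-- Transfer of chains by a non-expanding map. -/
theorem Reach.map {E' : Type} {ρ' : E' → E' → ℝ} {S' : Set (E' × E')} (g : E → E')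
    (hg : ∀ x y, ρ' (g x) (g y) ≤ ρ x y) (hS : ∀ p ∈ S, (g p.1, g p.2) ∈ S') {x y : E} {t : ℝ}
    (h : Reach ρ S x y t) : Reach ρ' S' (g x) (g y) t := by
  induction h with
  | refl h0 => exact Reach.refl h0
  | @step y z s t h hs ht ih =>
    exact Reach.step ih (hs.imp (fun h => hS _ h) (fun h => hS _ h)) (by linarith [hg y z])

theorem walkLen_nonneg {V : Type} {G : SimpleGraph V} {w : Sym2 V → ℝ}
    (hw : ∀ e ∈ G.edgeSet, 0 < w e) {u v : V} (p : G.Walk u v) : 0 ≤ walkLen w p := by
  refine List.sum_nonneg fun a ha => ?_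
  obtain ⟨e, he, rfl⟩ := List.mem_map.1 ha
  exact (hw e (p.edges_subset_edgeSet he)).le

theorem gdist_nonneg {V : Type} {G : SimpleGraph V} {w : Sym2 V → ℝ}
    (hw : ∀ e ∈ G.edgeSet, 0 < w e) (u v : V) : 0 ≤ gdist G w u v :=
  Real.iInf_nonneg fun p => walkLen_nonneg hw p

theorem gdist_le {V : Type} {G : SimpleGraph V} {w : Sym2 V → ℝ}
    (hw : ∀ e ∈ G.edgeSet, 0 < w e) {u v : V} (p : G.Walk u v) : gdist G w u v ≤ walkLen w p :=
  ciInf_le ⟨0, by rintro _ ⟨q, rfl⟩; exact walkLen_nonneg hw q⟩ p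

theorem walkLen_cons {V : Type} {G : SimpleGraph V} (w : Sym2 V → ℝ) {u v z : V}
    (h : G.Adj u v) (p : G.Walk v z) :
    walkLen w (SimpleGraph.Walk.cons h p) = w s(u, v) + walkLen w p := by
  simp [walkLen]

theorem walkLen_append {V : Type} {G : SimpleGraph V} (w : Sym2 V → ℝ) {u v z : V}
    (p : G.Walk u v) (q : G.Walk v z) : walkLen w (p.append q) = walkLen w p + walkLen w q := by
  simp [walkLen]

/-- A geometric network gives an embedding in a weighted graph. -/
theorem embeds_of_reach (hsymm : ∀ x y, ρ x y = ρ y x)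
    (htri : ∀ x y z, ρ x z ≤ ρ x y + ρ y z) (h0 : ∀ x, ρ x x = 0)
    (hpos : ∀ x y, x ≠ y → 0 < ρ x y) (M : Finset E) (hM : M.Nonempty) (c : ℝ)
    (S : Finset (E × E))
    (hS : ∀ x ∈ M, ∀ y ∈ M, Reach ρ (S : Set (E × E)) x y (c * ρ x y)) :
    Embeds ρ M c S.card := by
  classical
  obtain ⟨x0, hx0⟩ := hM
  let H : SimpleGraph E := SimpleGraph.fromRel fun u v => (u, v) ∈ S
  let W : Set E := {v | H.Reachable x0 v}
  have hWfin : W.Finite := by
    refine ((insert x0 (S.image Prod.fst ∪ S.image Prod.snd)).finite_toSet).subset ?_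
    intro v hv
    obtain ⟨p⟩ := (hv : H.Reachable x0 v).symm
    cases p with
    | nil => simp
    | @cons _ b _ hadj _ =>
      have : (v, b) ∈ S ∨ (b, v) ∈ S := hadj.2
      simp only [Finset.coe_insert, Finset.coe_union, Finset.coe_image, mem_insert_iff, mem_union]
      rcases this with h | h
      · exact Or.inr (Or.inl ⟨_, h, rfl⟩)
      · exact Or.inr (Or.inr ⟨_, h, rfl⟩)
  let V : Type := W
  have : Finite V := hWfin
  let G : SimpleGraph V := H.comap Subtype.val
  let w : Sym2 V → ℝ := Sym2.lift ⟨fun u v => ρ u.1 v.1, fun u v => hsymm _ _⟩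
  have hw : ∀ u v : V, w s(u, v) = ρ u.1 v.1 := fun u v => rfl
  have hx0W : x0 ∈ W := SimpleGraph.Reachable.refl _
  -- chains give walks
  have key : ∀ (x : V) {y : E} {t : ℝ}, Reach ρ (S : Set (E × E)) x.1 y t →
      ∃ hy : y ∈ W, ∃ p : G.Walk x ⟨y, hy⟩, walkLen w p ≤ t := by
    intro x y t h
    induction h with
    | refl h0 => exact ⟨x.2, SimpleGraph.Walk.nil, by simpa [walkLen] using h0⟩
    | @step y z s t h hs ht ih =>
      obtain ⟨hy, p, hp⟩ := ih
      by_cases hyz : y = z
      · subst hyz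
        exact ⟨hy, p, by rw [h0] at ht; linarith⟩
      · have hadj : H.Adj y z := ⟨hyz, hs⟩
        have hz : z ∈ W := (hy : H.Reachable x0 y).trans hadj.reachable
        have hadj' : G.Adj ⟨y, hy⟩ ⟨z, hz⟩ := hadj
        refine ⟨hz, p.append (SimpleGraph.Walk.cons hadj' SimpleGraph.Walk.nil), ?_⟩
        rw [walkLen_append, walkLen_cons, hw]
        simp only [walkLen, SimpleGraph.Walk.edges_nil, List.map_nil, List.sum_nil]
        simp only [walkLen] at hp
        linarith
  have hconn : G.Connected := by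
    have h1 : ∀ v : V, G.Reachable ⟨x0, hx0W⟩ v := by
      rintro ⟨v, hv⟩
      obtain ⟨p⟩ := id (hv : H.Reachable x0 v)
      have h2 : ∀ (a b : E) (p : H.Walk a b) (ha : a ∈ W) (hb : b ∈ W),
          G.Reachable ⟨a, ha⟩ ⟨b, hb⟩ := by
        intro a b p
        induction p with
        | nil => intro ha hb; exact SimpleGraph.Reachable.refl _
        | @cons a b c hadj p ih =>
          intro ha hc
          have hb : b ∈ W := (ha : H.Reachable x0 a).trans hadj.reachable
          have hadj' : G.Adj ⟨a, ha⟩ ⟨b, hb⟩ := hadj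
          exact hadj'.reachable.trans (ih hb hc)
      exact h2 _ _ p hx0W hv
    have : Nonempty V := ⟨⟨x0, hx0W⟩⟩
    exact ⟨fun u v => (h1 u).symm.trans (h1 v)⟩
  have hposw : ∀ e ∈ G.edgeSet, 0 < w e := by
    intro e
    induction e with
    | _ u v =>
      intro h
      rw [hw]
      exact hpos _ _ (H.ne_of_adj h)
  have hlow : ∀ (u v : V) (p : G.Walk u v), ρ u.1 v.1 ≤ walkLen w p := by
    intro u v p
    induction p with
    | nil => simp [walkLen, h0]
    | @cons a b c hadj p ih =>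
      rw [walkLen_cons, hw]
      linarith [htri a.1 b.1 c.1]
  refine ⟨V, inferInstance, G, w, hconn, hposw, ?_, ?_⟩
  · have hsub : (Sym2.map Subtype.val) '' G.edgeSet ⊆
        ((S.image fun p => s(p.1, p.2) : Finset (Sym2 E)) : Set (Sym2 E)) := by
      rintro _ ⟨e, he, rfl⟩
      induction e with
      | _ u v =>
        have : (u.1, v.1) ∈ S ∨ (v.1, u.1) ∈ S := (he : H.Adj u.1 v.1).2
        simp only [Finset.coe_image, mem_image, Finset.mem_coe]
        rcases this with h | h
        · exact ⟨_, h, rfl⟩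
        · exact ⟨_, h, Sym2.eq_swap⟩
    calc G.edgeSet.ncard = ((Sym2.map Subtype.val) '' G.edgeSet).ncard :=
          (ncard_image_of_injective _ (Sym2.map.injective Subtype.val_injective)).symm
      _ ≤ ((S.image fun p => s(p.1, p.2) : Finset (Sym2 E)) : Set (Sym2 E)).ncard :=
          ncard_le_ncard hsub (Finset.finite_toSet _)
      _ = (S.image fun p => s(p.1, p.2)).card := ncard_coe_finset _
      _ ≤ S.card := Finset.card_image_le
  · have hMW : ∀ x ∈ M, x ∈ W := fun x hx => by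
      obtain ⟨h, -⟩ := key ⟨x0, hx0W⟩ (hS x0 hx0 x hx)
      exact h
    refine ⟨fun x => if h : x ∈ W then ⟨x, h⟩ else ⟨x0, hx0W⟩, 1, one_pos, fun x hx y hy => ?_⟩
    simp only [dif_pos (hMW x hx), dif_pos (hMW y hy)]
    obtain ⟨hyW, p, hp⟩ := key ⟨x, hMW x hx⟩ (hS x hx y hy)
    have : Nonempty (G.Walk ⟨x, hMW x hx⟩ ⟨y, hMW y hy⟩) := ⟨p⟩
    constructor
    · rw [one_mul]
      exact le_ciInf fun q => hlow _ _ q
    · rw [one_mul]
      exact (gdist_le hposw p).trans hp

end Pool.Agent.Helper39.Net
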